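import Pool.Agent.H2.TF.Defs

/-!
# Positive dependences between the generators of the rays
-/

set_option autoImplicit false

noncomputable section

namespace Pool.Agent.H2.TF

open Finset

variable {n : ℕ}

theorem emb_injective : Function.Injective (emb : (Fin n → ℤ) → (Fin n → ℝ)) := by
  intro v w h
  funext i
  have := congrFun h i
  unfold emb at this
  exact_mod_cast this

theorem emb_neg (v : Fin n → ℤ) : emb (-v) = -emb v := by
  funext i
  simp [emb]

theorem emb_sum {ι : Type} (s : Finset ι) (f : ι → Fin n → ℤ) : emb (∑ j ∈ s, f j) = ∑ j ∈ s, emb (f j) := by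
  funext i
  simp [emb, Finset.sum_apply]

/-- `C` has a dependence with positive coefficients `l`. -/
def Dep (C : Finset (Fin n → ℤ)) (l : (Fin n → ℤ) → ℝ) : Prop :=
  C.Nonempty ∧ (∀ v ∈ C, 0 < l v) ∧ ∑ v ∈ C, l v • emb v = 0

/-- Every vector is a nonnegative combination. -/
theorem coeffs {V : Finset (Fin n → ℤ)} (hV : Submodule.span NNReal (emb '' (V : Set (Fin n → ℤ))) = ⊤)
    (x : Fin n → ℝ) : ∃ a : (Fin n → ℤ) → ℝ, (∀ v, 0 ≤ a v) ∧ ∑ v ∈ V, a v • emb v = x := by
  classical
  have hx : x ∈ Submodule.span NNReal (emb '' (V : Set (Fin n → ℤ))) := by rw [hV]; trivial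
  obtain ⟨c, hc⟩ := (Submodule.mem_span_image_finset_iff_exists_fun NNReal).1 hx
  refine ⟨fun v => if h : v ∈ V then ((c ⟨v, h⟩ : NNReal) : ℝ) else 0, fun v => ?_, ?_⟩
  · by_cases h : v ∈ V
    · simp only [h, dite_true]
      exact NNReal.coe_nonneg _
    · simp only [h, dite_false]
      exact le_rfl
  · rw [← hc, ← Finset.sum_coe_sort V]
    refine Finset.sum_congr rfl fun v _ => ?_
    simp only [v.2, dite_true]
    rfl

theorem exists_dep {V : Finset (Fin n → ℤ)} (hn : 1 ≤ n)
    (hV : Submodule.span NNReal (emb '' (V : Set (Fin n → ℤ))) = ⊤) :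
    ∃ C ⊆ V, ∃ l, Dep C l := by
  classical
  have hne : V.Nonempty := by
    by_contra h
    rw [Finset.not_nonempty_iff_eq_empty] at h
    obtain ⟨a, -, ha⟩ := coeffs hV (fun _ => 1)
    rw [h, Finset.sum_empty] at ha
    have := congrFun ha ⟨0, hn⟩
    simp at this
  obtain ⟨v0, hv0⟩ := hne
  obtain ⟨a, ha0, ha⟩ := coeffs hV (-emb v0)
  set l : (Fin n → ℤ) → ℝ := fun v => a v + if v = v0 then 1 else 0 with hl
  have hl0 : ∀ v, 0 ≤ l v := fun v => by
    rw [hl]
    have := ha0 v
    dsimp only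
    split_ifs <;> linarith
  have hs : ∑ v ∈ V, l v • emb v = 0 := by
    rw [hl]
    simp only [add_smul, Finset.sum_add_distrib, ha, ite_smul, one_smul, zero_smul]
    rw [Finset.sum_ite_eq' V v0, if_pos hv0]
    simp
  refine ⟨V.filter fun v => 0 < l v, Finset.filter_subset _ _, l, ⟨v0, ?_⟩, fun v hv => (Finset.mem_filter.1 hv).2, ?_⟩
  · rw [Finset.mem_filter]
    refine ⟨hv0, ?_⟩
    have := ha0 v0
    rw [hl]
    simp only [if_true]
    linarith
  · rw [← hs, Finset.sum_filter]
    refine Finset.sum_congr rfl fun v _ => ?_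
    split_ifs with h
    · rfl
    · have : l v = 0 := le_antisymm (not_lt.1 h) (hl0 v)
      rw [this, zero_smul]

/-- A dependence of a smallest positively dependent set which vanishes at one element vanishes. -/
theorem min_indep {V C : Finset (Fin n → ℤ)} {l : (Fin n → ℤ) → ℝ} (hCV : C ⊆ V) (hl : Dep C l)
    (hmin : ∀ C' ⊆ V, (∃ l', Dep C' l') → C.card ≤ C'.card) {c0 : Fin n → ℤ} (hc0 : c0 ∈ C)
    (m : (Fin n → ℤ) → ℝ) (hm : ∑ v ∈ C, m v • emb v = 0) (hm0 : m c0 = 0) : ∀ v ∈ C, m v = 0 := by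
  classical
  -- no positive value
  have key : ∀ m : (Fin n → ℤ) → ℝ, ∑ v ∈ C, m v • emb v = 0 → m c0 = 0 → ∀ v ∈ C, m v ≤ 0 := by
    intro m hm hm0 v1 hv1
    by_contra hpos
    push Not at hpos
    obtain ⟨w, hw, hwmin⟩ := (C.filter fun v => 0 < m v).exists_min_image (fun v => l v / m v)
      ⟨v1, Finset.mem_filter.2 ⟨hv1, hpos⟩⟩
    rw [Finset.mem_filter] at hw
    set t := l w / m w with ht
    have ht0 : 0 < t := div_pos (hl.2.1 w hw.1) hw.2
    have hnn : ∀ v ∈ C, 0 ≤ l v - t * m v := by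
      intro v hv
      by_cases h : 0 < m v
      · have h1 := hwmin v (Finset.mem_filter.2 ⟨hv, h⟩)
        have h2 : t ≤ l v / m v := h1
        rw [le_div_iff₀ h] at h2
        linarith
      · have h1 := hl.2.1 v hv
        have h2 : t * m v ≤ 0 := mul_nonpos_of_nonneg_of_nonpos ht0.le (not_lt.1 h)
        linarith
    have hsum : ∑ v ∈ C, (l v - t * m v) • emb v = 0 := by
      have h1 : ∑ v ∈ C, (l v - t * m v) • emb v = ∑ v ∈ C, l v • emb v - t • ∑ v ∈ C, m v • emb v := by
        rw [Finset.smul_sum, ← Finset.sum_sub_distrib]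
        refine Finset.sum_congr rfl fun v _ => ?_
        rw [sub_smul, mul_smul]
      rw [h1, hm, hl.2.2, smul_zero, sub_zero]
    have hw0 : l w - t * m w = 0 := by
      rw [ht, div_mul_cancel₀ _ hw.2.ne', sub_self]
    have hD : Dep (C.filter fun v => 0 < l v - t * m v) (fun v => l v - t * m v) := by
      refine ⟨⟨c0, Finset.mem_filter.2 ⟨hc0, ?_⟩⟩, fun v hv => (Finset.mem_filter.1 hv).2, ?_⟩
      · rw [hm0, mul_zero, sub_zero]
        exact hl.2.1 c0 hc0
      · rw [← hsum, Finset.sum_filter]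
        refine Finset.sum_congr rfl fun v hv => ?_
        split_ifs with h
        · rfl
        · have : l v - t * m v = 0 := le_antisymm (not_lt.1 h) (hnn v hv)
          rw [this, zero_smul]
    have h1 := hmin _ ((Finset.filter_subset _ _).trans hCV) ⟨_, hD⟩
    have h2 : (C.filter fun v => 0 < l v - t * m v) ⊂ C := by
      refine Finset.filter_ssubset.2 ⟨w, hw.1, ?_⟩
      rw [hw0]
      exact lt_irrefl _
    exact absurd (Finset.card_lt_card h2) (not_lt.2 h1)
  intro v hv
  have h1 := key m hm hm0 v hv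
  have h2 := key (fun v => -m v) (by
    simp only [neg_smul, Finset.sum_neg_distrib, hm, neg_zero]) (by simp [hm0]) v hv
  simp only [Left.neg_nonpos_iff] at h2
  exact le_antisymm h1 h2

/-- Extension of an independent subset to a basis. -/
theorem exists_basis {V S : Finset (Fin n → ℤ)}
    (hV : Submodule.span NNReal (emb '' (V : Set (Fin n → ℤ))) = ⊤) (hSV : S ⊆ V)
    (hS : LinearIndepOn ℝ (emb : (Fin n → ℤ) → (Fin n → ℝ)) (S : Set (Fin n → ℤ))) :
    ∃ c : Fin n → (Fin n → ℤ), Function.Injective c ∧ (∀ j, c j ∈ V) ∧ (∀ s ∈ S, ∃ j, c j = s) ∧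
      (Matrix.of c).det ≠ 0 := by
  classical
  have hSV' : (S : Set (Fin n → ℤ)) ⊆ (V : Set (Fin n → ℤ)) := by exact_mod_cast hSV
  set B : Set (Fin n → ℤ) := hS.extend hSV' with hB
  have hBV : B ⊆ (V : Set (Fin n → ℤ)) := hS.extend_subset hSV'
  have hSB : (S : Set (Fin n → ℤ)) ⊆ B := hS.subset_extend hSV'
  have hBi : LinearIndepOn ℝ emb B := hS.linearIndepOn_extend hSV'
  have hBs : Submodule.span ℝ (emb '' B) = Submodule.span ℝ (emb '' (V : Set (Fin n → ℤ))) :=
    hS.span_image_extend_eq_span_image hSV'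
  have htop : Submodule.span ℝ (emb '' (V : Set (Fin n → ℤ))) = ⊤ := by
    rw [eq_top_iff]
    rintro x -
    obtain ⟨a, -, ha⟩ := coeffs hV x
    rw [← ha]
    exact Submodule.sum_mem _ fun v hv => Submodule.smul_mem _ _ (Submodule.subset_span ⟨v, hv, rfl⟩)
  have hfin : B.Finite := (Finset.finite_toSet V).subset hBV
  haveI : Fintype B := hfin.fintype
  have hli : LinearIndependent ℝ (fun b : B => emb (b : Fin n → ℤ)) := hBi
  have hcard : Fintype.card B = n := by
    have h1 := finrank_span_eq_card hli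
    have h2 : Set.range (fun b : B => emb (b : Fin n → ℤ)) = emb '' B := by
      ext x
      simp
    rw [h2, hBs, htop, finrank_top, Module.finrank_fin_fun] at h1
    exact h1.symm
  let e : Fin n ≃ B := (Fintype.equivFinOfCardEq hcard).symm
  refine ⟨fun j => (e j : Fin n → ℤ), fun i j h => e.injective (Subtype.ext h), fun j => ?_, fun s hs => ?_, ?_⟩
  · exact_mod_cast hBV (e j).2
  · refine ⟨e.symm ⟨s, hSB (by exact_mod_cast hs)⟩, ?_⟩
    simp
  · have h1 : LinearIndependent ℝ (fun j : Fin n => emb (e j : Fin n → ℤ)) := hli.comp e e.injective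
    have h2 : IsUnit ((Matrix.of fun j => (e j : Fin n → ℤ)).map (fun z : ℤ => (z : ℝ))) := by
      rw [← Matrix.linearIndependent_rows_iff_isUnit]
      exact h1
    rw [Matrix.isUnit_iff_isUnit_det] at h2
    intro h3
    rw [← Int.cast_det, h3] at h2
    simp at h2

/-- Cramer's rule. -/
theorem cramer (c : Fin n → (Fin n → ℤ)) (w : Fin n → ℤ) (a : Fin n → ℝ) (hw : emb w = ∑ j, a j • emb (c j))
    (j : Fin n) : ((Matrix.of (Function.update c j w)).det : ℝ) = a j * ((Matrix.of c).det : ℝ) := by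
  classical
  set A : Matrix (Fin n) (Fin n) ℝ := (Matrix.of c).map (fun z : ℤ => (z : ℝ)) with hA
  have h1 := Matrix.det_updateRow_sum A j a
  have h2 : ((Matrix.of (Function.update c j w)).map (fun z : ℤ => (z : ℝ))) = A.updateRow j (∑ k, a k • A k) := by
    ext i k
    by_cases h : i = j
    · subst h
      rw [Matrix.updateRow_self]
      have h3 := congrFun hw k
      simp only [Matrix.map_apply, Matrix.of_apply, Function.update_self]
      unfold emb at h3
      rw [h3]
      rfl
    · rw [Matrix.updateRow_ne h]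
      simp only [Matrix.map_apply, Matrix.of_apply, hA]
      rw [Function.update_of_ne h]
  rw [Int.cast_det, h2, h1, hA, ← Int.cast_det, smul_eq_mul]

end Pool.Agent.H2.TF
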