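import Pool.Agent.H2.TF.Comb

/-!
# The smallest positive dependence if all minors are `0, 1, -1`
-/

set_option autoImplicit false

noncomputable section

namespace Pool.Agent.H2.TF

open Finset

variable {n : ℕ}

/-- All minors of size `n` are `0`, `1` or `-1`. -/
def Umod (V : Finset (Fin n → ℤ)) : Prop :=
  ∀ c : Fin n → (Fin n → ℤ), (∀ j, c j ∈ V) → |(Matrix.of c).det| ≤ 1

theorem erase_indep {V C : Finset (Fin n → ℤ)} {l : (Fin n → ℤ) → ℝ} (hCV : C ⊆ V) (hl : Dep C l)
    (hmin : ∀ C' ⊆ V, (∃ l', Dep C' l') → C.card ≤ C'.card) {c0 : Fin n → ℤ} (hc0 : c0 ∈ C) :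
    LinearIndepOn ℝ (emb : (Fin n → ℤ) → (Fin n → ℝ)) ((C.erase c0 : Finset (Fin n → ℤ)) : Set (Fin n → ℤ)) := by
  classical
  rw [linearIndepOn_finset_iff]
  intro f hf v hv
  have h1 : ∑ v ∈ C, (if v = c0 then 0 else f v) • emb v = 0 := by
    rw [← Finset.sum_erase_add _ _ hc0, if_pos rfl, zero_smul, add_zero, ← hf]
    refine Finset.sum_congr rfl fun v hv => ?_
    rw [if_neg (Finset.ne_of_mem_erase hv)]
  have h2 := min_indep hCV hl hmin hc0 (fun v => if v = c0 then 0 else f v) h1 (if_pos rfl) v
    (Finset.mem_of_mem_erase hv)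
  rwa [if_neg (Finset.ne_of_mem_erase hv)] at h2

/-- a basis which contains all elements of `C` but one -/
theorem basis_at {V C : Finset (Fin n → ℤ)} {l : (Fin n → ℤ) → ℝ}
    (hV : Submodule.span NNReal (emb '' (V : Set (Fin n → ℤ))) = ⊤) (hCV : C ⊆ V) (hl : Dep C l)
    (hmin : ∀ C' ⊆ V, (∃ l', Dep C' l') → C.card ≤ C'.card) {c0 : Fin n → ℤ} (hc0 : c0 ∈ C) :
    ∃ c : Fin n → (Fin n → ℤ), Function.Injective c ∧ (∀ j, c j ∈ V) ∧ (∀ s ∈ C.erase c0, ∃ j, c j = s) ∧
      (Matrix.of c).det ≠ 0 :=
  exists_basis hV ((Finset.erase_subset _ _).trans hCV) (erase_indep hCV hl hmin hc0)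

theorem image_J {C : Finset (Fin n → ℤ)} {c0 : Fin n → ℤ} {c : Fin n → (Fin n → ℤ)}
    (hc : ∀ s ∈ C.erase c0, ∃ j, c j = s) :
    (univ.filter fun j => c j ∈ C.erase c0).image c = C.erase c0 := by
  classical
  ext v
  rw [Finset.mem_image]
  constructor
  · rintro ⟨j, hj, rfl⟩
    exact (Finset.mem_filter.1 hj).2
  · intro hv
    obtain ⟨j, hj⟩ := hc v hv
    exact ⟨j, Finset.mem_filter.2 ⟨Finset.mem_univ _, by rw [hj]; exact hv⟩, hj⟩

theorem sum_J {M : Type} [AddCommMonoid M] {C : Finset (Fin n → ℤ)} {c0 : Fin n → ℤ} {c : Fin n → (Fin n → ℤ)}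
    (hci : Function.Injective c) (hc : ∀ s ∈ C.erase c0, ∃ j, c j = s) (f : (Fin n → ℤ) → M) :
    ∑ v ∈ C.erase c0, f v = ∑ j ∈ univ.filter (fun j => c j ∈ C.erase c0), f (c j) := by
  classical
  conv_lhs => rw [← image_J hc]
  rw [Finset.sum_image (fun i _ j _ h => hci h)]

theorem abs_det_one {V : Finset (Fin n → ℤ)} (hU : Umod V) {c : Fin n → (Fin n → ℤ)} (hc : ∀ j, c j ∈ V)
    (hd : (Matrix.of c).det ≠ 0) : |(Matrix.of c).det| = 1 := by
  have h1 := hU c hc
  have h2 : 0 < |(Matrix.of c).det| := abs_pos.2 hd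
  omega

/-- The coefficients of the smallest positive dependence are equal. -/
theorem coeff_eq {V C : Finset (Fin n → ℤ)} {l : (Fin n → ℤ) → ℝ}
    (hV : Submodule.span NNReal (emb '' (V : Set (Fin n → ℤ))) = ⊤) (hU : Umod V) (hCV : C ⊆ V) (hl : Dep C l)
    (hmin : ∀ C' ⊆ V, (∃ l', Dep C' l') → C.card ≤ C'.card) {c0 : Fin n → ℤ} (hc0 : c0 ∈ C) :
    ∀ v ∈ C.erase c0, l v = l c0 := by
  classical
  obtain ⟨c, hci, hcV, hcS, hd⟩ := basis_at hV hCV hl hmin hc0
  have hd1 := abs_det_one hU hcV hd
  have hl0 : 0 < l c0 := hl.2.1 c0 hc0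
  have hrel : emb c0 = ∑ j, (if c j ∈ C.erase c0 then -(l (c j) / l c0) else 0) • emb (c j) := by
    have h1 := hl.2.2
    rw [← Finset.sum_erase_add _ _ hc0, sum_J hci hcS] at h1
    have h2 : ∑ j, (if c j ∈ C.erase c0 then -(l (c j) / l c0) else 0) • emb (c j) =
        -((l c0)⁻¹ • ∑ j ∈ univ.filter (fun j => c j ∈ C.erase c0), l (c j) • emb (c j)) := by
      rw [Finset.smul_sum, ← Finset.sum_neg_distrib, Finset.sum_filter]
      refine Finset.sum_congr rfl fun j _ => ?_
      split_ifs
      · rw [smul_smul, neg_smul, div_eq_inv_mul]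
      · rw [zero_smul]
    rw [h2, eq_neg_of_add_eq_zero_left h1, smul_neg, neg_neg, smul_smul, inv_mul_cancel₀ hl0.ne', one_smul]
  intro v hv
  obtain ⟨j, rfl⟩ := hcS v hv
  have h3 := cramer c c0 _ hrel j
  rw [if_pos hv] at h3
  have hlv : 0 < l (c j) := hl.2.1 _ (Finset.mem_of_mem_erase hv)
  have h4 : |(Matrix.of (Function.update c j c0)).det| ≤ 1 := hU _ (fun k => by
    by_cases h : k = j
    · subst h
      rw [Function.update_self]
      exact hCV hc0
    · rw [Function.update_of_ne h]
      exact hcV k)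
  have h5 : |((Matrix.of (Function.update c j c0)).det : ℝ)| = l (c j) / l c0 := by
    rw [h3, abs_mul, abs_neg, abs_of_pos (div_pos hlv hl0)]
    have : |((Matrix.of c).det : ℝ)| = 1 := by exact_mod_cast hd1
    rw [this, mul_one]
  have h6 : 0 < l (c j) / l c0 := div_pos hlv hl0
  have h7 : |(Matrix.of (Function.update c j c0)).det| = 1 := by
    have : 0 < |(Matrix.of (Function.update c j c0)).det| := by
      have : (0 : ℝ) < |((Matrix.of (Function.update c j c0)).det : ℝ)| := by rw [h5]; exact h6
      exact_mod_cast this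
    omega
  have h8 : |((Matrix.of (Function.update c j c0)).det : ℝ)| = 1 := by exact_mod_cast h7
  rw [h8] at h5
  rw [eq_comm, div_eq_one_iff_eq hl0.ne'] at h5
  exact h5

theorem comb {V : Finset (Fin n → ℤ)} (hn : 1 ≤ n)
    (hV : Submodule.span NNReal (emb '' (V : Set (Fin n → ℤ))) = ⊤) (h0 : (0 : Fin n → ℤ) ∉ V) (hU : Umod V) :
    ∃ c : Fin n → (Fin n → ℤ), (∀ j, c j ∈ V) ∧ (Matrix.of c).det ≠ 0 ∧ ∃ v0 ∈ V, ∃ I : Finset (Fin n),
      I.Nonempty ∧ v0 = -∑ j ∈ I, c j ∧ (I = univ → V = insert v0 (univ.image c)) := by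
  classical
  -- the smallest positive dependence
  obtain ⟨C, hC, hmin'⟩ := (V.powerset.filter fun C => ∃ l, Dep C l).exists_min_image Finset.card (by
    obtain ⟨C, hC, h⟩ := exists_dep hn hV
    exact ⟨C, Finset.mem_filter.2 ⟨Finset.mem_powerset.2 hC, h⟩⟩)
  rw [Finset.mem_filter, Finset.mem_powerset] at hC
  obtain ⟨hCV, l, hl⟩ := hC
  have hmin : ∀ C' ⊆ V, (∃ l', Dep C' l') → C.card ≤ C'.card := fun C' h1 h2 =>
    hmin' C' (Finset.mem_filter.2 ⟨Finset.mem_powerset.2 h1, h2⟩)
  obtain ⟨c0, hc0⟩ := hl.1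
  -- the sum of `C` is zero
  have hsumR : ∑ v ∈ C, emb v = 0 := by
    have h1 := hl.2.2
    have h2 : ∑ v ∈ C, l v • emb v = l c0 • ∑ v ∈ C, emb v := by
      rw [Finset.smul_sum]
      refine Finset.sum_congr rfl fun v hv => ?_
      by_cases h : v = c0
      · rw [h]
      · rw [coeff_eq hV hU hCV hl hmin hc0 v (Finset.mem_erase.2 ⟨h, hv⟩)]
    rw [h2] at h1
    exact (smul_eq_zero.1 h1).resolve_left (hl.2.1 c0 hc0).ne'
  have hsum : ∑ v ∈ C, v = 0 := by
    apply emb_injective
    rw [emb_sum, hsumR]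
    funext i
    simp [emb]
  obtain ⟨c, hci, hcV, hcS, hd⟩ := basis_at hV hCV hl hmin hc0
  set J := univ.filter (fun j => c j ∈ C.erase c0) with hJ
  have hc0J : c0 = -∑ j ∈ J, c j := by
    have h1 := hsum
    rw [← Finset.sum_erase_add _ _ hc0, sum_J hci hcS (fun v => v)] at h1
    exact eq_neg_of_add_eq_zero_right h1
  refine ⟨c, hcV, hd, c0, hCV hc0, J, ?_, hc0J, fun hJu => ?_⟩
  · by_contra hJe
    rw [Finset.not_nonempty_iff_eq_empty] at hJe
    rw [hJe, Finset.sum_empty, neg_zero] at hc0J
    exact h0 (hc0J ▸ hCV hc0)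
  · have himg : univ.image c = C.erase c0 := by
      rw [← hJu]
      exact image_J hcS
    have hins : insert c0 (univ.image c) = C := by
      rw [himg, Finset.insert_erase hc0]
    have hcardE : (C.erase c0).card = n := by
      rw [← himg, Finset.card_image_of_injective _ hci, Finset.card_univ, Fintype.card_fin]
    have hcard : C.card = n + 1 := by
      have := Finset.card_erase_add_one hc0
      omega
    rw [hins]
    refine Finset.Subset.antisymm (fun v hv => ?_) hCV
    by_contra hvC
    -- coefficients of `v`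
    obtain ⟨a, ha⟩ : ∃ a : Fin n → ℝ, emb v = ∑ j, a j • emb (c j) := by
      set A : Matrix (Fin n) (Fin n) ℝ := (Matrix.of c).map (fun z : ℤ => (z : ℝ)) with hA
      have hdA : IsUnit A.det := by
        rw [hA, ← Int.cast_det, isUnit_iff_ne_zero]
        exact_mod_cast hd
      refine ⟨Matrix.vecMul (emb v) A⁻¹, ?_⟩
      have h1 : Matrix.vecMul (Matrix.vecMul (emb v) A⁻¹) A = emb v := by
        rw [Matrix.vecMul_vecMul, Matrix.nonsing_inv_mul _ hdA, Matrix.vecMul_one]
      funext i
      have h2 := congrFun h1 i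
      rw [← h2, Finset.sum_apply]
      rfl
    set b : (Fin n → ℤ) → ℝ := fun w => ∑ j, if c j = w then a j else 0 with hb
    have hbc : ∀ j, b (c j) = a j := by
      intro j
      rw [hb]
      simp only
      rw [Finset.sum_eq_single j]
      · rw [if_pos rfl]
      · intro k _ hk
        rw [if_neg fun h => hk (hci h)]
      · intro h
        exact absurd (Finset.mem_univ j) h
    have hbs : ∑ w ∈ C, b w • emb w = emb v := by
      have hb0 : b c0 = 0 := by
        rw [hb]
        refine Finset.sum_eq_zero fun j _ => ?_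
        rw [if_neg]
        intro h
        have h2 : c j ∈ C.erase c0 := by
          rw [← himg]
          exact Finset.mem_image_of_mem _ (Finset.mem_univ _)
        exact Finset.ne_of_mem_erase h2 h
      rw [← Finset.sum_erase_add _ _ hc0, hb0, zero_smul, add_zero, ← himg,
        Finset.sum_image (fun i _ j _ h => hci h), ha]
      exact Finset.sum_congr rfl fun j _ => by rw [hbc]
    obtain ⟨d0, hd0, hd0min⟩ := C.exists_min_image b hl.1
    obtain ⟨c', hci', hcV', hcS', hd'⟩ := basis_at hV hCV hl hmin hd0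
    have hcardE' : (C.erase d0).card = n := by
      have := Finset.card_erase_add_one hd0
      omega
    have hall : ∀ j, c' j ∈ C.erase d0 := by
      have h1 : C.erase d0 ⊆ univ.image c' := by
        intro s hs
        obtain ⟨j, rfl⟩ := hcS' s hs
        exact Finset.mem_image_of_mem _ (Finset.mem_univ _)
      have h2 : (univ.image c').card = n := by
        rw [Finset.card_image_of_injective _ hci', Finset.card_univ, Fintype.card_fin]
      have h3 : C.erase d0 = univ.image c' := Finset.eq_of_subset_of_card_le h1 (by rw [h2, hcardE'])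
      intro j
      rw [h3]
      exact Finset.mem_image_of_mem _ (Finset.mem_univ _)
    have hJ' : univ.filter (fun j => c' j ∈ C.erase d0) = univ :=
      Finset.filter_true_of_mem fun j _ => hall j
    have hrel : emb v = ∑ j, (b (c' j) - b d0) • emb (c' j) := by
      have h1 : ∑ w ∈ C, (b w - b d0) • emb w = emb v := by
        simp only [sub_smul, Finset.sum_sub_distrib, hbs]
        rw [← Finset.smul_sum, hsumR, smul_zero, sub_zero]
      rw [← h1, ← Finset.sum_erase_add _ _ hd0, sub_self, zero_smul, add_zero, sum_J hci' hcS', hJ']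
    have hd1 := abs_det_one hU hcV' hd'
    have h01 : ∀ j, b (c' j) - b d0 = 0 ∨ b (c' j) - b d0 = 1 := by
      intro j
      have h3 := cramer c' v _ hrel j
      have h4 : |(Matrix.of (Function.update c' j v)).det| ≤ 1 := hU _ (fun k => by
        by_cases h : k = j
        · subst h
          rw [Function.update_self]
          exact hv
        · rw [Function.update_of_ne h]
          exact hcV' k)
      have h5 : |((Matrix.of (Function.update c' j v)).det : ℝ)| = b (c' j) - b d0 := by
        rw [h3, abs_mul]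
        have h6 : |((Matrix.of c').det : ℝ)| = 1 := by exact_mod_cast hd1
        rw [h6, mul_one, abs_of_nonneg]
        have := hd0min (c' j) (Finset.mem_of_mem_erase (hall j))
        linarith
      have h7 : 0 ≤ |(Matrix.of (Function.update c' j v)).det| := abs_nonneg _
      have h8 : |(Matrix.of (Function.update c' j v)).det| = 0 ∨
          |(Matrix.of (Function.update c' j v)).det| = 1 := by omega
      rw [← h5]
      rcases h8 with h8 | h8
      · left; exact_mod_cast h8
      · right; exact_mod_cast h8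
    set K := univ.filter (fun j => b (c' j) - b d0 = 1) with hK
    have hvK : emb v = ∑ j ∈ K, emb (c' j) := by
      rw [hrel, hK, Finset.sum_filter]
      refine Finset.sum_congr rfl fun j _ => ?_
      rcases h01 j with h | h
      · rw [h, zero_smul, if_neg (by norm_num)]
      · rw [h, one_smul, if_pos rfl]
    -- the new dependence
    have himg' : univ.image c' = C.erase d0 := by
      have := image_J hcS'
      rwa [hJ'] at this
    have hd0i : ∀ j, c' j ≠ d0 := fun j => Finset.ne_of_mem_erase (hall j)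
    have hdis1 : d0 ∉ (Kᶜ).image c' := by
      intro h
      obtain ⟨j, -, hj⟩ := Finset.mem_image.1 h
      exact hd0i j hj
    have hdis2 : v ∉ insert d0 ((Kᶜ).image c') := by
      intro h
      rw [Finset.mem_insert] at h
      rcases h with h | h
      · exact hvC (h ▸ hd0)
      · obtain ⟨j, -, hj⟩ := Finset.mem_image.1 h
        exact hvC (hj ▸ Finset.mem_of_mem_erase (hall j))
    have hnew : Dep (insert v (insert d0 ((Kᶜ).image c'))) (fun _ => 1) := by
      refine ⟨⟨v, Finset.mem_insert_self _ _⟩, fun _ _ => one_pos, ?_⟩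
      simp only [one_smul]
      rw [Finset.sum_insert hdis2, Finset.sum_insert hdis1, Finset.sum_image (fun i _ j _ h => hci' h), hvK]
      have h1 := hsumR
      rw [← Finset.sum_erase_add _ _ hd0, sum_J hci' hcS', hJ', ← Finset.sum_add_sum_compl K] at h1
      rw [← h1]
      abel
    have hsub : insert v (insert d0 ((Kᶜ).image c')) ⊆ V := by
      intro w hw
      rw [Finset.mem_insert, Finset.mem_insert] at hw
      rcases hw with rfl | rfl | hw
      · exact hv
      · exact hCV hd0
      · obtain ⟨j, -, rfl⟩ := Finset.mem_image.1 hw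
        exact hcV' j
    have hcle := hmin _ hsub ⟨_, hnew⟩
    rw [Finset.card_insert_of_notMem hdis2, Finset.card_insert_of_notMem hdis1,
      Finset.card_image_of_injective _ hci', Finset.card_compl, Fintype.card_fin, hcard] at hcle
    have hK1 : K.card ≤ 1 := by
      have := Finset.card_le_univ K
      rw [Fintype.card_fin] at this
      omega
    rcases Nat.le_one_iff_eq_zero_or_eq_one.1 hK1 with hK0 | hK1
    · rw [Finset.card_eq_zero] at hK0
      rw [hK0, Finset.sum_empty] at hvK
      apply h0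
      have : v = 0 := emb_injective (by
        rw [hvK]
        funext i
        simp [emb])
      rw [← this]
      exact hv
    · obtain ⟨j, hj⟩ := Finset.card_eq_one.1 hK1
      rw [hj, Finset.sum_singleton] at hvK
      have : v = c' j := emb_injective hvK
      exact hvC (this ▸ Finset.mem_of_mem_erase (hall j))

end Pool.Agent.H2.TF
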