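import Mathlib

/-!
# Toric Fano varieties by their Fano polytopes

A toric Fano variety of dimension `n` is determined, up to isomorphism, by the set `V` of the primitive generators of the
rays of its fan; these sets `V` are exactly the vertex sets of the Fano polytopes: lattice polytopes with primitive
vertices and the origin in the interior.
-/

set_option autoImplicit false

noncomputable section

namespace Pool.Agent.H2.TF

open MeasureTheory

variable {n : ℕ}

/-- A lattice vector as a real vector. -/
def emb (v : Fin n → ℤ) : Fin n → ℝ := fun i => (v i : ℝ)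

/-- The pairing `⟨x, v⟩`. -/
def pair (x : Fin n → ℝ) (v : Fin n → ℤ) : ℝ := ∑ i, x i * (v i : ℝ)

/-- The polytope of all `x` with `⟨x, v⟩ ≥ -1` for all `v ∈ V`: the moment polytope of the anticanonical divisor of the
toric variety whose rays are generated by the elements of `V`. -/
def polytope (V : Finset (Fin n → ℤ)) : Set (Fin n → ℝ) := {x | ∀ v ∈ V, -1 ≤ pair x v}

/-- `V` is the set of the vertices of a Fano polytope, that is the set of the primitive ray generators of a toric Fano
variety: the elements of `V` are primitive lattice vectors, each real vector is a combination of elements of `V` with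
nonnegative coefficients (the origin is in the interior of the convex hull of `V`), and each `v ∈ V` is a vertex of the
convex hull of `V` (its inequality defines a facet of the polytope). -/
structure IsFano (V : Finset (Fin n → ℤ)) : Prop where
  primitive : ∀ v ∈ V, ∀ m : ℤ, (∀ i, m ∣ v i) → IsUnit m
  complete : Submodule.span NNReal (emb '' (V : Set (Fin n → ℤ))) = ⊤
  vertex : ∀ v ∈ V, ∃ x ∈ polytope V, pair x v = -1 ∧ ∀ w ∈ V, w ≠ v → -1 < pair x w

/-- The barycentre of the polytope is the origin: the variety is K-semistable. -/
def BarycentreZero (V : Finset (Fin n → ℤ)) : Prop := ∀ i, ∫ x in polytope V, x i = 0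

/-- The volume `(-K)^n = n! vol P`. -/
def vol (V : Finset (Fin n → ℤ)) : ℝ := (n.factorial : ℝ) * volume.real (polytope V)

/-- The ray generators of `ℙ^n`: a basis of the lattice and minus its sum. -/
def IsProjectiveSpace (V : Finset (Fin n → ℤ)) : Prop :=
  ∃ A : Fin n → (Fin n → ℤ), IsUnit (Matrix.of A).det ∧ V = insert (-∑ i, A i) (Finset.univ.image A)

/-- The ray generators of `ℙ^1 × ℙ^(n-1)`: for a basis `A` of the lattice and an index `i` the vectors
`A j`, `- A i` and `- ∑_{j ≠ i} A j`. -/
def IsLineTimesProjective (V : Finset (Fin n → ℤ)) : Prop :=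
  ∃ A : Fin n → (Fin n → ℤ), IsUnit (Matrix.of A).det ∧ ∃ i : Fin n,
    V = insert (-A i) (insert (-∑ j ∈ Finset.univ.erase i, A j) (Finset.univ.image A))

end Pool.Agent.H2.TF
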