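import Pool.Agent.H2.TF.Upper

/-!
# The case of equality
-/

set_option autoImplicit false

noncomputable section

namespace Pool.Agent.H2.TF

open MeasureTheory
open scoped ENNReal

variable {n : ℕ}

/-! ### numbers -/

theorem rv_lt_succ (k : ℕ) : rv k < rv (k + 1) := by
  unfold rv
  push_cast
  set x : ℝ := ((k : ℝ) + 2) / ((k : ℝ) + 1) with hx
  have hx0 : 0 < x := by positivity
  have hy : ((k : ℝ) + 1 + 2) / ((k : ℝ) + 1 + 1) = x * (1 + -(1 / ((k : ℝ) + 2) ^ 2)) := by
    rw [hx]
    field_simp
    ring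
  rw [hy, mul_pow]
  have hlt1 : (1 : ℝ) / ((k : ℝ) + 2) ^ 2 < 1 := by
    rw [div_lt_one (by positivity)]
    nlinarith [Nat.cast_nonneg (α := ℝ) k]
  have hpos1 : 0 < (1 : ℝ) / ((k : ℝ) + 2) ^ 2 := by positivity
  have hb : 1 + ((k + 1 + 1 : ℕ) : ℝ) * (-(1 / ((k : ℝ) + 2) ^ 2)) <
      (1 + -(1 / ((k : ℝ) + 2) ^ 2)) ^ (k + 1 + 1) := by
    set y : ℝ := -(1 / ((k : ℝ) + 2) ^ 2) with hy
    have h1 : 1 + ((k + 1 : ℕ) : ℝ) * y ≤ (1 + y) ^ (k + 1) := by
      apply one_add_mul_le_pow
      rw [hy]
      linarith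
    have hy1 : 0 < 1 + y := by rw [hy]; linarith
    have hy2 : y < 0 := by rw [hy]; linarith
    calc 1 + ((k + 1 + 1 : ℕ) : ℝ) * y < (1 + ((k + 1 : ℕ) : ℝ) * y) * (1 + y) := by
          push_cast
          have h2 : 0 < ((k : ℝ) + 1) * y ^ 2 := mul_pos (by positivity) (by nlinarith)
          nlinarith
      _ ≤ (1 + y) ^ (k + 1) * (1 + y) := mul_le_mul_of_nonneg_right h1 hy1.le
      _ = (1 + y) ^ (k + 1 + 1) := (pow_succ _ _).symm
  have h2 : x ^ (k + 1) = x ^ (k + 1 + 1) * (1 + ((k + 1 + 1 : ℕ) : ℝ) * (-(1 / ((k : ℝ) + 2) ^ 2))) := by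
    rw [pow_succ x (k + 1), mul_assoc]
    have h3 : x * (1 + ((k + 1 + 1 : ℕ) : ℝ) * (-(1 / ((k : ℝ) + 2) ^ 2))) = 1 := by
      rw [hx]
      push_cast
      field_simp
      ring
    rw [h3, mul_one]
  rw [h2]
  exact mul_lt_mul_of_pos_left hb (by positivity)

theorem rv_strict : StrictMono rv := strictMono_nat_of_lt_succ rv_lt_succ

theorem gv_mul_lt {a b : ℕ} (ha : 2 ≤ a) (hab : a ≤ b) : gv a * gv b < gv 1 * gv (a + b - 1) := by
  obtain ⟨a, rfl⟩ := Nat.exists_eq_add_of_le' (show 1 ≤ a by omega)
  have h1 : gv (a + 1) * gv b < gv a * gv (b + 1) := by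
    rw [gv_succ a, gv_succ b]
    have h2 : rv a < rv b := rv_strict (by omega)
    have h3 := gv_pos a
    have h4 := gv_pos b
    nlinarith [mul_lt_mul_of_pos_left h2 (mul_pos h3 h4)]
  refine h1.trans_le ((gv_mul_le' (a := a) (b := b + 1) (by omega) (by omega)).trans (le_of_eq ?_))
  congr 2
  omega

/-- equality in the numerical inequality -/
theorem num_eq {n a b : ℕ} (ha : 1 ≤ a) (hb : 1 ≤ b) (hn : a + b = n)
    (h : 2 * (n : ℝ) ^ n ≤ (n.factorial : ℝ) * (gv a * gv b)) : a = 1 ∨ b = 1 := by
  by_contra hcon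
  push Not at hcon
  have h2 : (n.factorial : ℝ) * (gv 1 * gv (a + b - 1)) = 2 * (n : ℝ) ^ n := by
    obtain ⟨m, rfl⟩ : ∃ m, n = m + 1 := ⟨n - 1, by omega⟩
    have h3 : a + b - 1 = m := by omega
    rw [h3]
    unfold gv
    rw [Nat.factorial_succ]
    have h4 : (m.factorial : ℝ) ≠ 0 := by positivity
    push_cast
    rw [pow_succ ((m : ℝ) + 1) m]
    field_simp
    norm_num
  have h1 : gv a * gv b < gv 1 * gv (a + b - 1) := by
    rcases le_total a b with hab | hab
    · exact gv_mul_lt (by omega) hab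
    · have := gv_mul_lt (a := b) (b := a) (by omega) hab
      rwa [mul_comm, Nat.add_comm] at this
  have h3 : (0 : ℝ) < n.factorial := by positivity
  have h4 := mul_lt_mul_of_pos_left h1 h3
  rw [h2] at h4
  linarith

/-- `(n+1)^n < 4 n^n`. -/
theorem num_sing_lt {n : ℕ} (hn : 1 ≤ n) : ((n : ℝ) + 1) ^ n < 4 * (n : ℝ) ^ n := by
  have h1 := Real.one_add_inv_pow_le_exp (n := n)
  have h2 : Real.exp 1 < 4 := by
    have := Real.exp_one_lt_d9
    linarith
  have hn0 : (0 : ℝ) < n := by exact_mod_cast hn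
  have h3 : ((n : ℝ) + 1) ^ n = (1 + (n : ℝ)⁻¹) ^ n * (n : ℝ) ^ n := by
    rw [← mul_pow]
    congr 1
    field_simp
  rw [h3]
  exact mul_lt_mul_of_pos_right (h1.trans_lt h2) (by positivity)

/-! ### polytopes -/

theorem pair_smul (t : ℝ) (x : Fin n → ℝ) (v : Fin n → ℤ) : pair (t • x) v = t * pair x v := by
  unfold pair
  rw [Finset.mul_sum]
  exact Finset.sum_congr rfl fun i _ => by rw [Pi.smul_apply, smul_eq_mul]; ring

theorem pair_add (x y : Fin n → ℝ) (v : Fin n → ℤ) : pair (x + y) v = pair x v + pair y v := by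
  unfold pair
  rw [← Finset.sum_add_distrib]
  exact Finset.sum_congr rfl fun i _ => by rw [Pi.add_apply]; ring

/-- Polytopes which differ by a null set are contained in each other. -/
theorem subset_of_null {U W : Finset (Fin n → ℤ)} (h : volume (polytope U \ polytope W) = 0) :
    polytope U ⊆ polytope W := by
  intro x hx
  set O : Set (Fin n → ℝ) := {y | ∀ v ∈ U, -1 < pair y v} with hO
  have hOo : IsOpen O := by
    have h1 : O = ⋂ v ∈ U, {y : Fin n → ℝ | -1 < pair y v} := by
      ext y
      simp [hO]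
    rw [h1]
    refine isOpen_biInter_finset fun v _ => isOpen_lt continuous_const ?_
    unfold pair
    fun_prop
  have hempty : O \ polytope W = ∅ := by
    by_contra hne
    have h1 : (O \ polytope W).Nonempty := Set.nonempty_iff_ne_empty.2 hne
    have h2 : IsOpen (O \ polytope W) := hOo.sdiff (polytope_closed W)
    have h3 := h2.measure_pos volume h1
    have h4 : volume (O \ polytope W) ≤ volume (polytope U \ polytope W) :=
      measure_mono (Set.sdiff_subset_sdiff_left fun y hy v hv => (hy v hv).le)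
    rw [h] at h4
    exact absurd h3 (not_lt.2 h4)
  have hOW : O ⊆ polytope W := Set.sdiff_eq_empty.1 hempty
  intro w hw
  have key : ∀ t : ℝ, 0 ≤ t → t < 1 → -1 ≤ t * pair x w := by
    intro t ht0 ht1
    have h1 : t • x ∈ O := by
      intro v hv
      rw [pair_smul]
      have h2 := hx v hv
      nlinarith
    have h2 := hOW h1 w hw
    rwa [pair_smul] at h2
  by_contra hlt
  push Not at hlt
  have hp : pair x w < 0 := by linarith
  have h1 := key ((1 + 1 / (-pair x w)) / 2) (by
    have : 0 < 1 / (-pair x w) := by apply div_pos one_pos; linarith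
    linarith) (by
    have : 1 / (-pair x w) < 1 := by
      rw [div_lt_one (by linarith)]
      linarith
    linarith)
  have h2 : (1 + 1 / (-pair x w)) / 2 * pair x w = (pair x w - 1) / 2 := by
    have : pair x w ≠ 0 := hp.ne
    field_simp
    ring
  rw [h2] at h1
  linarith

theorem exists_eps {ι : Type} (s : Finset ι) (f g : ι → ℝ) (h : ∀ i ∈ s, -1 < f i) :
    ∃ e : ℝ, 0 < e ∧ ∀ i ∈ s, -1 ≤ f i + e * g i := by
  classical
  induction s using Finset.induction_on with
  | empty => exact ⟨1, one_pos, by simp⟩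
  | insert a s ha ih =>
    obtain ⟨e, he, h1⟩ := ih fun i hi => h i (Finset.mem_insert_of_mem hi)
    have ha1 := h a (Finset.mem_insert_self _ _)
    set e' : ℝ := (f a + 1) / (|g a| + 1) with he'
    have he'0 : 0 < e' := by
      rw [he']
      apply div_pos
      · linarith
      · positivity
    refine ⟨min e e', lt_min he he'0, fun i hi => ?_⟩
    have hm : 0 < min e e' := lt_min he he'0
    rcases Finset.mem_insert.1 hi with rfl | hi
    · have h2 : min e e' * |g i| ≤ f i + 1 := by
        calc min e e' * |g i| ≤ e' * (|g i| + 1) :=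
              mul_le_mul (min_le_right _ _) (by linarith) (abs_nonneg _) he'0.le
          _ = f i + 1 := by
              rw [he', div_mul_cancel₀]
              positivity
      have h3 := neg_abs_le (g i)
      nlinarith
    · have h2 := h1 i hi
      have h3 := h i (Finset.mem_insert_of_mem hi)
      by_cases hg : 0 ≤ g i
      · have : 0 ≤ min e e' * g i := mul_nonneg hm.le hg
        linarith
      · push Not at hg
        have : e * g i ≤ min e e' * g i := mul_le_mul_of_nonpos_right (min_le_left _ _) hg.le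
        linarith

/-- An inequality which defines a facet occurs in each description of the polytope. -/
theorem facet_mem {V W : Finset (Fin n → ℤ)} (h : polytope V = polytope W) {v : Fin n → ℤ} (hv : v ∈ V)
    {x : Fin n → ℝ} (hx : x ∈ polytope V) (hxv : pair x v = -1) (hxw : ∀ w ∈ V, w ≠ v → -1 < pair x w) :
    v ∈ W := by
  classical
  have hxW : x ∈ polytope W := h ▸ hx
  -- some inequality of `W` is an equality at `x`
  obtain ⟨w, hw, hwx⟩ : ∃ w ∈ W, pair x w = -1 := by
    by_contra hcon
    push Not at hcon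
    obtain ⟨e, he, h1⟩ := exists_eps W (fun w => pair x w) (fun w => pair x w)
      (fun w hw => lt_of_le_of_ne (hxW w hw) (Ne.symm (hcon w hw)))
    have h2 : x + e • x ∈ polytope W := by
      intro w hw
      rw [pair_add, pair_smul]
      exact h1 w hw
    rw [← h] at h2
    have h3 := h2 v hv
    rw [pair_add, pair_smul, hxv] at h3
    linarith
  have hdir : ∀ d : Fin n → ℝ, 0 ≤ pair d v → 0 ≤ pair d w := by
    intro d hd
    obtain ⟨e, he, h1⟩ := exists_eps (V.erase v) (fun u => pair x u) (fun u => pair d u)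
      (fun u hu => hxw u (Finset.mem_of_mem_erase hu) (Finset.ne_of_mem_erase hu))
    have h2 : x + e • d ∈ polytope V := by
      intro u hu
      rw [pair_add, pair_smul]
      by_cases huv : u = v
      · rw [huv, hxv]
        have := mul_nonneg he.le hd
        linarith
      · exact h1 u (Finset.mem_erase.2 ⟨huv, hu⟩)
    rw [h] at h2
    have h3 := h2 w hw
    rw [pair_add, pair_smul, hwx] at h3
    have h4 : 0 ≤ e * pair d w := by linarith
    exact nonneg_of_mul_nonneg_right h4 he
  have heq : ∀ d : Fin n → ℝ, pair d w = pair d v := by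
    intro d
    have e1 : pair (d + pair d v • x) v = 0 := by rw [pair_add, pair_smul, hxv]; ring
    have e2 : pair ((-1 : ℝ) • (d + pair d v • x)) v = 0 := by rw [pair_smul, e1, mul_zero]
    have h1 := hdir _ e1.ge
    have h2 := hdir _ e2.ge
    rw [pair_smul] at h2
    rw [pair_add, pair_smul, hwx] at h1 h2
    linarith
  have : w = v := by
    funext i
    have h1 := heq (Pi.single i 1)
    unfold pair at h1
    have e : ∀ u : Fin n → ℤ, ∑ k, (Pi.single i 1 : Fin n → ℝ) k * (u k : ℝ) = (u i : ℝ) := by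
      intro u
      rw [Finset.sum_eq_single i]
      · rw [Pi.single_eq_same, one_mul]
      · intro k _ hk
        rw [Pi.single_eq_of_ne hk, zero_mul]
      · intro h
        exact absurd (Finset.mem_univ i) h
    rw [e, e] at h1
    exact_mod_cast h1
  exact this ▸ hw

end Pool.Agent.H2.TF
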