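import Pool.Agent.H2.TF.Eq

/-!
# The case of equality: the polytope
-/

set_option autoImplicit false

noncomputable section

namespace Pool.Agent.H2.TF

open MeasureTheory
open scoped ENNReal

variable {n : ℕ}

/-- If the volume bound is an equality, almost no point of `P` has `∑_{j ∉ I} z_j > n - |I| + 1`. -/
theorem null_part (P : Set (Fin n → ℝ)) (hb : Bornology.IsBounded P) (hcl : IsClosed P)
    (hbar : ∀ i, ∫ p in P, p i = 0) (R : Matrix (Fin n) (Fin n) ℤ) (hR : R.det ≠ 0)
    (hP : ∀ p ∈ P, ∀ j, -1 ≤ ∑ i, p i * ((R i j : ℤ) : ℝ)) (I : Finset (Fin n))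
    (hIn : I.card < n) (hI : ∀ p ∈ P, ∑ j ∈ I, zc R p j ≤ (I.card : ℝ) + 1)
    (hV0 : volume.real P = gv I.card * gv (n - I.card) / |(R.det : ℝ)|) :
    volume (P ∩ {p | ((n - I.card : ℕ) : ℝ) + 1 < ∑ j ∈ Iᶜ, zc R p j}) = 0 := by
  have hVt : volume P ≠ ⊤ := hb.measure_lt_top.ne
  set V := volume.real P with hV
  set a := I.card with ha
  set b := n - I.card with hbdef
  have hb1 : 1 ≤ b := by omega
  have hcc : (Iᶜ).card = b := by rw [Finset.card_compl, Fintype.card_fin]
  have hd : (0 : ℝ) < |(R.det : ℝ)| := by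
    rw [abs_pos]
    exact_mod_cast hR
  have hpos : ∀ p ∈ P, ∀ j, 0 ≤ zc R p j := by
    intro p hp j
    have := hP p hp j
    unfold zc
    linarith
  set β : Fin n → ℝ := fun i => ∑ j ∈ Iᶜ, ((R i j : ℤ) : ℝ) with hβ
  have hh : ∀ p, ∑ j ∈ Iᶜ, zc R p j = ∑ i, β i * p i + (b : ℝ) := by
    intro p
    rw [zc_sum, hcc]
  have hlc := layer_cake P hb hcl β (b : ℝ) (fun p hp => by
    rw [← hh]
    exact Finset.sum_nonneg fun j _ => hpos p hp j)
  have hz : ∑ i, β i * (∫ p in P, p i) = 0 :=
    Finset.sum_eq_zero fun i _ => by rw [hbar i, mul_zero]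
  rw [hz, zero_add] at hlc
  set c : ℝ := ((a : ℝ) + 1) ^ a / a.factorial / b.factorial / |(R.det : ℝ)| with hc
  have hc0 : 0 ≤ c := by positivity
  have hcV : c * ((b : ℝ) + 1) ^ b = V := by
    rw [hV0, hc]
    unfold gv
    field_simp
  have hlow : ∀ t : ℝ, 0 ≤ t → ENNReal.ofReal (V - c * t ^ b) ≤
      volume (P ∩ {p | t ≤ ∑ i, β i * p i + (b : ℝ)}) := by
    intro t ht
    have h1 : P ⊆ (P ∩ {p | t ≤ ∑ i, β i * p i + (b : ℝ)}) ∪
        {p | zc R p ∈ reg I ((a : ℝ) + 1) t} := by
      intro p hp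
      by_cases hpt : t ≤ ∑ i, β i * p i + (b : ℝ)
      · exact Or.inl ⟨hp, hpt⟩
      · right
        refine ⟨hpos p hp, hI p hp, ?_⟩
        rw [hh]
        exact (not_le.1 hpt).le
    have h2 := (measure_mono (μ := (volume : Measure (Fin n → ℝ))) h1).trans (measure_union_le _ _)
    rw [vol_zc R hR, vol_reg I _ t (by positivity) ht, ← ha, ← hbdef,
      ← ENNReal.ofReal_mul (by positivity), ← ENNReal.ofReal_mul (by positivity)] at h2
    have h3 : 1 / |(R.det : ℝ)| * (((a : ℝ) + 1) ^ a / a.factorial * (t ^ b / b.factorial)) =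
        c * t ^ b := by
      rw [hc]
      field_simp
    rw [h3] at h2
    rw [ENNReal.ofReal_sub _ (by positivity)]
    have h4 : ENNReal.ofReal V = volume P := ENNReal.ofReal_toReal hVt
    rw [h4]
    exact tsub_le_iff_right.2 h2
  set μ : ℝ → ℝ≥0∞ := fun t => volume (P ∩ {p | t ≤ ∑ i, β i * p i + (b : ℝ)}) with hμ
  have hanti : Antitone μ := fun s t hst => measure_mono fun p hp => ⟨hp.1, le_trans hst hp.2⟩
  have hcont : Continuous fun t : ℝ => V - c * t ^ b := by fun_prop
  have hIoo : IntegrableOn (fun t : ℝ => V - c * t ^ b) (Set.Ioo 0 ((b : ℝ) + 1)) volume :=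
    (hcont.continuousOn.integrableOn_Icc (a := (0 : ℝ)) (b := (b : ℝ) + 1)).mono_set
      Set.Ioo_subset_Icc_self
  have hint0 : ∫⁻ t in Set.Ioo (0 : ℝ) ((b : ℝ) + 1), ENNReal.ofReal (V - c * t ^ b) =
      ENNReal.ofReal ((b : ℝ) * V) := by
    rw [← ofReal_integral_eq_lintegral_ofReal hIoo]
    · rw [← integral_Ioc_eq_integral_Ioo, ← intervalIntegral.integral_of_le (by positivity),
        intervalIntegral.integral_sub (by simp) (by
          apply Continuous.intervalIntegrable
          fun_prop), intervalIntegral.integral_const, intervalIntegral.integral_const_mul,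
        integral_pow]
      congr 1
      have h5 : ((b : ℝ) + 1 - 0) • V - c * ((((b : ℝ) + 1) ^ (b + 1) - 0 ^ (b + 1)) / ((b : ℝ) + 1)) =
          ((b : ℝ) + 1) * V - c * ((b : ℝ) + 1) ^ b := by
        rw [smul_eq_mul, sub_zero, zero_pow (by omega), sub_zero, pow_succ]
        congr 2
        field_simp
      rw [h5, hcV]
      ring
    · refine (ae_restrict_iff' measurableSet_Ioo).2 (Filter.Eventually.of_forall fun t ht => ?_)
      have h6 : t ^ b ≤ ((b : ℝ) + 1) ^ b := pow_le_pow_left₀ ht.1.le ht.2.le b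
      have h7 := mul_le_mul_of_nonneg_left h6 hc0
      show 0 ≤ V - c * t ^ b
      linarith
  have hsplit : (∫⁻ t in Set.Ioo (0 : ℝ) ((b : ℝ) + 1), μ t) + (∫⁻ t in Set.Ioi ((b : ℝ) + 1), μ t) ≤
      ∫⁻ t in Set.Ioi (0 : ℝ), μ t := by
    rw [← lintegral_union measurableSet_Ioi (Set.disjoint_left.2 fun t h1 h2 =>
      absurd h1.2 (not_lt.2 (le_of_lt h2)))]
    refine lintegral_mono_set (Set.union_subset (fun t h => h.1) fun t h => ?_)
    have h1 : (b : ℝ) + 1 < t := h
    have h2 : (0 : ℝ) ≤ b := Nat.cast_nonneg b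
    show (0 : ℝ) < t
    linarith
  have hzero : ∫⁻ t in Set.Ioi ((b : ℝ) + 1), μ t = 0 := by
    have h1 : ENNReal.ofReal ((b : ℝ) * V) ≤ ∫⁻ t in Set.Ioo (0 : ℝ) ((b : ℝ) + 1), μ t := by
      rw [← hint0]
      exact setLIntegral_mono' measurableSet_Ioo fun t ht => hlow t ht.1.le
    have h2 : ENNReal.ofReal ((b : ℝ) * V) + ∫⁻ t in Set.Ioi ((b : ℝ) + 1), μ t ≤
        ENNReal.ofReal ((b : ℝ) * V) + 0 := by
      rw [add_zero]
      exact ((add_le_add h1 le_rfl).trans hsplit).trans hlc.le
    have h3 := (ENNReal.add_le_add_iff_left ENNReal.ofReal_ne_top).1 h2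
    exact le_antisymm h3 bot_le
  have hk : ∀ k : ℕ, μ ((b : ℝ) + 1 + 1 / ((k : ℝ) + 1)) = 0 := by
    intro k
    have hk0 : (0 : ℝ) < 1 / ((k : ℝ) + 1) := by positivity
    have h1 : ∫⁻ t in Set.Ioo ((b : ℝ) + 1) ((b : ℝ) + 1 + 1 / ((k : ℝ) + 1)),
        μ ((b : ℝ) + 1 + 1 / ((k : ℝ) + 1)) ≤ ∫⁻ t in Set.Ioi ((b : ℝ) + 1), μ t :=
      (setLIntegral_mono' measurableSet_Ioo fun t ht => hanti ht.2.le).trans
        (lintegral_mono_set fun t ht => ht.1)
    rw [hzero, setLIntegral_const, Real.volume_Ioo, add_sub_cancel_left] at h1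
    have h2 : μ ((b : ℝ) + 1 + 1 / ((k : ℝ) + 1)) * ENNReal.ofReal (1 / ((k : ℝ) + 1)) = 0 :=
      le_antisymm h1 bot_le
    rcases mul_eq_zero.1 h2 with h3 | h3
    · exact h3
    · exact absurd h3 (ENNReal.ofReal_pos.2 hk0).ne'
  refine measure_mono_null ?_ (measure_iUnion_null hk)
  rintro p ⟨hp, hps⟩
  have hps' : (b : ℝ) + 1 < ∑ j ∈ Iᶜ, zc R p j := hps
  rw [hh] at hps'
  obtain ⟨k, hk⟩ := exists_nat_one_div_lt (sub_pos.2 hps')
  refine Set.mem_iUnion.2 ⟨k, hp, ?_⟩
  show (b : ℝ) + 1 + 1 / ((k : ℝ) + 1) ≤ ∑ i, β i * p i + (b : ℝ)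
  linarith

/-- In the case of equality `P` is the product of two simplices, up to null sets. -/
theorem ae_reg (P : Set (Fin n → ℝ)) (hb : Bornology.IsBounded P) (hcl : IsClosed P)
    (hbar : ∀ i, ∫ p in P, p i = 0) (R : Matrix (Fin n) (Fin n) ℤ) (hR : R.det ≠ 0)
    (hP : ∀ p ∈ P, ∀ j, -1 ≤ ∑ i, p i * ((R i j : ℤ) : ℝ)) (I : Finset (Fin n))
    (hIn : I.card < n) (hI : ∀ p ∈ P, ∑ j ∈ I, zc R p j ≤ (I.card : ℝ) + 1)
    (hV0 : volume.real P = gv I.card * gv (n - I.card) / |(R.det : ℝ)|) :
    volume (P \ {p | zc R p ∈ reg I ((I.card : ℝ) + 1) (((n - I.card : ℕ) : ℝ) + 1)}) = 0 ∧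
    volume ({p | zc R p ∈ reg I ((I.card : ℝ) + 1) (((n - I.card : ℕ) : ℝ) + 1)} \ P) = 0 := by
  have hVt : volume P ≠ ⊤ := hb.measure_lt_top.ne
  set Q : Set (Fin n → ℝ) := {p | zc R p ∈ reg I ((I.card : ℝ) + 1) (((n - I.card : ℕ) : ℝ) + 1)} with hQ
  have hd : (0 : ℝ) < |(R.det : ℝ)| := by
    rw [abs_pos]
    exact_mod_cast hR
  have hvQ : volume Q = volume P := by
    rw [hQ, vol_zc R hR, vol_reg I _ _ (by positivity) (by positivity),
      ← ENNReal.ofReal_mul (by positivity), ← ENNReal.ofReal_mul (by positivity),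
      ← ENNReal.ofReal_toReal hVt]
    congr 1
    refine Eq.trans ?_ hV0.symm
    unfold gv
    field_simp
  have h1 : volume (P \ Q) = 0 := by
    refine measure_mono_null ?_ (null_part P hb hcl hbar R hR hP I hIn hI hV0)
    rintro p ⟨hp, hpQ⟩
    refine ⟨hp, ?_⟩
    show ((n - I.card : ℕ) : ℝ) + 1 < ∑ j ∈ Iᶜ, zc R p j
    by_contra hcon
    push Not at hcon
    refine hpQ ⟨fun j => ?_, hI p hp, hcon⟩
    have := hP p hp j
    unfold zc
    linarith
  refine ⟨h1, ?_⟩
  have h2 : volume (Q ∩ P) + volume (Q \ P) = volume Q := measure_inter_add_sdiff Q hcl.measurableSet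
  have h3 : volume P ≤ volume (Q ∩ P) := by
    have h4 : P ⊆ (Q ∩ P) ∪ (P \ Q) := by
      intro p hp
      by_cases h : p ∈ Q
      · exact Or.inl ⟨h, hp⟩
      · exact Or.inr ⟨hp, h⟩
    have h5 := (measure_mono (μ := (volume : Measure (Fin n → ℝ))) h4).trans (measure_union_le _ _)
    rwa [h1, add_zero] at h5
  have h6 : volume (Q ∩ P) ≠ ⊤ := ne_top_of_le_ne_top hVt (measure_mono Set.inter_subset_right)
  have h7 : volume (Q ∩ P) + volume (Q \ P) ≤ volume (Q ∩ P) + 0 := by
    rw [h2, hvQ, add_zero]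
    exact h3
  exact le_antisymm ((ENNReal.add_le_add_iff_left h6).1 h7) bot_le

/-- The ray generators of `ℙ^|I| × ℙ^(n-|I|)` in the basis `c`. -/
def prodSet (c : Fin n → (Fin n → ℤ)) (I : Finset (Fin n)) : Finset (Fin n → ℤ) :=
  insert (-∑ j ∈ I, c j) (insert (-∑ j ∈ Iᶜ, c j) (Finset.univ.image c))

theorem pair_neg_sum (p : Fin n → ℝ) (c : Fin n → (Fin n → ℤ)) (I : Finset (Fin n)) :
    pair p (-∑ j ∈ I, c j) = -∑ j ∈ I, pair p (c j) := by
  simp only [pair, Pi.neg_apply, Finset.sum_apply, Int.cast_neg, Int.cast_sum, mul_neg,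
    Finset.sum_neg_distrib, Finset.mul_sum]
  rw [Finset.sum_comm]

theorem sum_zc_pair (p : Fin n → ℝ) (c : Fin n → (Fin n → ℤ)) (I : Finset (Fin n)) :
    ∑ j ∈ I, zc (Matrix.of c).transpose p j = ∑ j ∈ I, pair p (c j) + I.card := by
  simp only [zc, Finset.sum_add_distrib, Finset.sum_const, nsmul_eq_mul, mul_one]
  rfl

theorem polytope_prodSet (c : Fin n → (Fin n → ℤ)) (I : Finset (Fin n)) :
    polytope (prodSet c I) =
      {p | zc (Matrix.of c).transpose p ∈ reg I ((I.card : ℝ) + 1) (((n - I.card : ℕ) : ℝ) + 1)} := by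
  have hcc : ((Iᶜ).card : ℝ) = ((n - I.card : ℕ) : ℝ) := by rw [Finset.card_compl, Fintype.card_fin]
  ext p
  constructor
  · intro hp
    refine ⟨fun j => ?_, ?_, ?_⟩
    · have h1 := hp (c j) (Finset.mem_insert_of_mem (Finset.mem_insert_of_mem
        (Finset.mem_image_of_mem c (Finset.mem_univ j))))
      have h2 : zc (Matrix.of c).transpose p j = pair p (c j) + 1 := rfl
      rw [h2]
      linarith
    · have h1 := hp _ (Finset.mem_insert_self _ _)
      rw [pair_neg_sum] at h1
      rw [sum_zc_pair]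
      linarith
    · have h1 := hp _ (Finset.mem_insert_of_mem (Finset.mem_insert_self _ _))
      rw [pair_neg_sum] at h1
      rw [sum_zc_pair, hcc]
      linarith
  · rintro ⟨h1, h2, h3⟩ v hv
    rcases Finset.mem_insert.1 hv with rfl | hv
    · rw [pair_neg_sum]
      rw [sum_zc_pair] at h2
      linarith
    rcases Finset.mem_insert.1 hv with rfl | hv
    · rw [pair_neg_sum]
      rw [sum_zc_pair, hcc] at h3
      linarith
    obtain ⟨j, _, rfl⟩ := Finset.mem_image.1 hv
    have h4 := h1 j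
    have h5 : zc (Matrix.of c).transpose p j = pair p (c j) + 1 := rfl
    rw [h5] at h4
    linarith

theorem exists_pair (c : Fin n → (Fin n → ℤ)) (hd : (Matrix.of c).det ≠ 0) (y : Fin n → ℝ) :
    ∃ x : Fin n → ℝ, ∀ j, pair x (c j) = y j := by
  set M : Matrix (Fin n) (Fin n) ℝ := (Matrix.of c).map (fun z : ℤ => (z : ℝ)) with hM
  have hdetM : M.det = ((Matrix.of c).det : ℝ) := (Int.cast_det (R := ℝ) (Matrix.of c)).symm
  have hu : IsUnit M.det := by
    rw [hdetM]
    exact isUnit_iff_ne_zero.2 (by exact_mod_cast hd)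
  refine ⟨M⁻¹.mulVec y, fun j => ?_⟩
  have h1 : M.mulVec (M⁻¹.mulVec y) = y := by
    rw [Matrix.mulVec_mulVec, Matrix.mul_nonsing_inv _ hu, Matrix.one_mulVec]
  have h2 := congrFun h1 j
  rw [← h2]
  simp only [pair, Matrix.mulVec, dotProduct, hM, Matrix.map_apply, Matrix.of_apply]
  exact Finset.sum_congr rfl fun i _ => mul_comm _ _

/-- Uniqueness of the extremal variety. -/
theorem unique {V : Finset (Fin n → ℤ)} (hn : 2 ≤ n) (hF : IsFano V) (h0 : (0 : Fin n → ℤ) ∉ V)
    (hbar : BarycentreZero V) (hP : ¬ IsProjectiveSpace V) (hvol : vol V = 2 * (n : ℝ) ^ n) :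
    IsLineTimesProjective V := by
  classical
  have hV := hF.complete
  by_cases hU : Umod V
  · obtain ⟨c, hcV, hd, v0, hv0, I, hI0, hsum, hI⟩ := comb (by omega) hV h0 hU
    have hd1 := abs_det_one hU hcV hd
    by_cases hIu : I = Finset.univ
    · exfalso
      apply hP
      refine ⟨c, Int.isUnit_iff_abs_eq.2 hd1, ?_⟩
      have h1 := hI hIu
      rwa [hsum, hIu] at h1
    · have hcard : I.card < n := by
        have h1 : I.card < (Finset.univ : Finset (Fin n)).card :=
          Finset.card_lt_card (Finset.ssubset_univ_iff.2 hIu)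
        rwa [Finset.card_univ, Fintype.card_fin] at h1
      have hcard0 : 1 ≤ I.card := Finset.card_pos.2 hI0
      have hd' : ((Matrix.of c).transpose).det ≠ 0 := by rwa [Matrix.det_transpose]
      have hle : ∀ p ∈ polytope V, ∑ j ∈ I, zc (Matrix.of c).transpose p j ≤ (I.card : ℝ) + 1 := by
        intro p hp
        have h1 := hp v0 hv0
        rw [hsum, pair_neg_sum] at h1
        rw [sum_zc_pair]
        linarith
      have hb := vol_bound (polytope V) (polytope_bounded hV) (polytope_closed V) hbar (Matrix.of c).transpose hd'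
        (fun p hp j => hp (c j) (hcV j)) I hcard hle
      have hdet : |((Matrix.of c).transpose.det : ℝ)| = 1 := by
        rw [Matrix.det_transpose]
        exact_mod_cast hd1
      have hnum := num_main (n := n) (a := I.card) (b := n - I.card) hcard0 (by omega) (by omega)
      have hfpos : (0 : ℝ) < n.factorial := by positivity
      have heq : volume.real (polytope V) = gv I.card * gv (n - I.card) / |((Matrix.of c).transpose.det : ℝ)| := by
        refine le_antisymm hb ?_
        rw [hdet, div_one]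
        refine le_of_mul_le_mul_left ?_ hfpos
        refine hnum.trans (le_of_eq ?_)
        rw [← hvol]
        rfl
      have hone : I.card = 1 ∨ n - I.card = 1 := by
        refine num_eq (n := n) hcard0 (by omega) (by omega) ?_
        rw [← hvol, vol]
        refine mul_le_mul_of_nonneg_left ?_ hfpos.le
        rw [heq, hdet, div_one]
      obtain ⟨n1, n2⟩ := ae_reg (polytope V) (polytope_bounded hV) (polytope_closed V) hbar
        (Matrix.of c).transpose hd' (fun p hp j => hp (c j) (hcV j)) I hcard hle heq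
      rw [← polytope_prodSet c I] at n1 n2
      have hpoly : polytope V = polytope (prodSet c I) :=
        Set.Subset.antisymm (subset_of_null n1) (subset_of_null n2)
      have hsub : V ⊆ prodSet c I := by
        intro v hv
        obtain ⟨x, hx, hxv, hxw⟩ := hF.vertex v hv
        exact facet_mem hpoly hv hx hxv hxw
      have hmem : -∑ j ∈ Iᶜ, c j ∈ V := by
        by_contra hnot
        obtain ⟨j0, hj0⟩ : (Iᶜ).Nonempty :=
          Finset.card_pos.1 (by rw [Finset.card_compl, Fintype.card_fin]; omega)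
        obtain ⟨x, hx⟩ := exists_pair c hd (fun j => if j = j0 then 2 else 0)
        have hxV : x ∈ polytope V := by
          intro v hv
          have h1 := hsub hv
          rcases Finset.mem_insert.1 h1 with rfl | h1
          · rw [pair_neg_sum, Finset.sum_eq_zero]
            · norm_num
            · intro j hj
              rw [hx, if_neg]
              rintro rfl
              exact Finset.mem_compl.1 hj0 hj
          rcases Finset.mem_insert.1 h1 with rfl | h1
          · exact absurd hv hnot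
          obtain ⟨j, _, rfl⟩ := Finset.mem_image.1 h1
          rw [hx]
          split_ifs <;> norm_num
        rw [hpoly] at hxV
        have h2 := hxV (-∑ j ∈ Iᶜ, c j) (Finset.mem_insert_of_mem (Finset.mem_insert_self _ _))
        rw [pair_neg_sum, Finset.sum_eq_single_of_mem j0 hj0 (fun j _ hj => by rw [hx, if_neg hj]), hx,
          if_pos rfl] at h2
        linarith
      have hVW : V = prodSet c I := by
        refine Finset.Subset.antisymm hsub fun v hv => ?_
        rcases Finset.mem_insert.1 hv with rfl | hv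
        · rw [← hsum]
          exact hv0
        rcases Finset.mem_insert.1 hv with rfl | hv
        · exact hmem
        obtain ⟨j, _, rfl⟩ := Finset.mem_image.1 hv
        exact hcV j
      rcases hone with h1 | h1
      · obtain ⟨i, hi⟩ := Finset.card_eq_one.1 h1
        refine ⟨c, Int.isUnit_iff_abs_eq.2 hd1, i, ?_⟩
        have h2 : Iᶜ = Finset.univ.erase i := by
          rw [hi]
          ext j
          simp
        rw [hVW, prodSet, h2, hi, Finset.sum_singleton]
      · have h3 : (Iᶜ).card = 1 := by rw [Finset.card_compl, Fintype.card_fin, h1]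
        obtain ⟨i, hi⟩ := Finset.card_eq_one.1 h3
        refine ⟨c, Int.isUnit_iff_abs_eq.2 hd1, i, ?_⟩
        have h2 : I = Finset.univ.erase i := by
          rw [← compl_compl I, hi]
          ext j
          simp
        rw [hVW, prodSet, hi, Finset.sum_singleton, ← h2, Finset.insert_comm]
  · exfalso
    unfold Umod at hU
    push Not at hU
    obtain ⟨c, hcV, hd⟩ := hU
    have hb := det_bound (by omega) hV hbar c hcV
    have h2 : (2 : ℝ) ≤ |((Matrix.of c).det : ℝ)| := by
      have : (2 : ℤ) ≤ |(Matrix.of c).det| := by omega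
      exact_mod_cast this
    have h3 : 0 ≤ vol V := by
      unfold vol
      positivity
    have h4 := num_sing_lt (n := n) (by omega)
    have h5 : vol V * 2 ≤ vol V * |((Matrix.of c).det : ℝ)| := mul_le_mul_of_nonneg_left h2 h3
    rw [hvol] at h5 hb
    linarith

theorem vol_line {V : Finset (Fin n → ℤ)} (hn : 2 ≤ n) (h : IsLineTimesProjective V) :
    vol V = 2 * (n : ℝ) ^ n := by
  classical
  obtain ⟨A, hA, i, rfl⟩ := h
  have h2 : (({i} : Finset (Fin n))ᶜ) = Finset.univ.erase i := by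
    ext j
    simp
  have h3 : insert (-A i) (insert (-∑ j ∈ Finset.univ.erase i, A j) (Finset.univ.image A)) = prodSet A {i} := by
    rw [prodSet, h2, Finset.sum_singleton]
  have hd1 : |(Matrix.of A).det| = 1 := Int.isUnit_iff_abs_eq.1 hA
  have hd' : ((Matrix.of A).transpose).det ≠ 0 := by
    rw [Matrix.det_transpose]
    exact hA.ne_zero
  have hdet : |((Matrix.of A).transpose.det : ℝ)| = 1 := by
    rw [Matrix.det_transpose]
    exact_mod_cast hd1
  have h4 : volume.real (polytope (prodSet A {i})) = gv 1 * gv (n - 1) := by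
    rw [polytope_prodSet, Measure.real, vol_zc _ hd', vol_reg _ _ _ (by positivity) (by positivity), hdet,
      ← ENNReal.ofReal_mul (by positivity), ← ENNReal.ofReal_mul (by positivity),
      ENNReal.toReal_ofReal (by positivity), Finset.card_singleton]
    unfold gv
    ring
  rw [h3, vol, h4]
  obtain ⟨m, rfl⟩ : ∃ m, n = m + 1 := ⟨n - 1, by omega⟩
  have h5 : m + 1 - 1 = m := rfl
  rw [h5]
  unfold gv
  rw [Nat.factorial_succ]
  have h6 : (m.factorial : ℝ) ≠ 0 := by positivity
  push_cast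
  rw [pow_succ ((m : ℝ) + 1) m]
  field_simp
  norm_num

end Pool.Agent.H2.TF
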