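import Pool.Agent.H2.TF.Upper

/-!
# The products `ℙ^a × ℙ^b`
-/

set_option autoImplicit false

noncomputable section

namespace Pool.Agent.H2.TF

open MeasureTheory

variable {n : ℕ}

/-- The vector `-∑ e_i`, `i ∈ J`. -/
def negSum (J : Finset (Fin n)) : Fin n → ℤ := fun i => if i ∈ J then -1 else 0

/-- The ray generators of `ℙ^a × ℙ^b`: the standard basis and the two vectors `negSum J`, `negSum Jᶜ`, with
`a = |J|`, `b = n - |J|`. -/
def prodRays (J : Finset (Fin n)) : Finset (Fin n → ℤ) :=
  insert (negSum J) (insert (negSum Jᶜ) (Finset.univ.image fun i => (Pi.single i 1 : Fin n → ℤ)))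

theorem pair_single (x : Fin n → ℝ) (i : Fin n) : pair x (Pi.single i 1 : Fin n → ℤ) = x i := by
  unfold pair
  rw [Finset.sum_eq_single i]
  · rw [Pi.single_eq_same, Int.cast_one, mul_one]
  · intro k _ hk
    rw [Pi.single_eq_of_ne hk, Int.cast_zero, mul_zero]
  · intro h
    exact absurd (Finset.mem_univ i) h

theorem pair_negSum (x : Fin n → ℝ) (J : Finset (Fin n)) : pair x (negSum J) = -∑ i ∈ J, x i := by
  unfold pair negSum
  rw [← Finset.sum_neg_distrib, ← Finset.sum_subset (Finset.subset_univ J)]
  · refine Finset.sum_congr rfl fun i hi => ?_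
    rw [if_pos hi]
    simp
  · intro i _ hi
    rw [if_neg hi]
    simp

theorem mem_prodRays {J : Finset (Fin n)} {v : Fin n → ℤ} :
    v ∈ prodRays J ↔ v = negSum J ∨ v = negSum Jᶜ ∨ ∃ i, v = Pi.single i 1 := by
  unfold prodRays
  rw [Finset.mem_insert, Finset.mem_insert, Finset.mem_image]
  constructor
  · rintro (h | h | ⟨i, -, h⟩)
    · exact Or.inl h
    · exact Or.inr (Or.inl h)
    · exact Or.inr (Or.inr ⟨i, h.symm⟩)
  · rintro (h | h | ⟨i, h⟩)
    · exact Or.inl h
    · exact Or.inr (Or.inl h)
    · exact Or.inr (Or.inr ⟨i, Finset.mem_univ _, h.symm⟩)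

theorem mem_polytope_prod {J : Finset (Fin n)} {x : Fin n → ℝ} :
    x ∈ polytope (prodRays J) ↔ (∀ i, -1 ≤ x i) ∧ ∑ i ∈ J, x i ≤ 1 ∧ ∑ i ∈ Jᶜ, x i ≤ 1 := by
  constructor
  · intro h
    refine ⟨fun i => ?_, ?_, ?_⟩
    · have := h _ (mem_prodRays.2 (Or.inr (Or.inr ⟨i, rfl⟩)))
      rwa [pair_single] at this
    · have := h _ (mem_prodRays.2 (Or.inl rfl))
      rw [pair_negSum] at this
      linarith
    · have := h _ (mem_prodRays.2 (Or.inr (Or.inl rfl)))
      rw [pair_negSum] at this
      linarith
  · rintro ⟨h1, h2, h3⟩ v hv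
    rcases mem_prodRays.1 hv with rfl | rfl | ⟨i, rfl⟩
    · rw [pair_negSum]; linarith
    · rw [pair_negSum]; linarith
    · rw [pair_single]; exact h1 i

theorem prod_volume (J : Finset (Fin n)) :
    volume.real (polytope (prodRays J)) = gv J.card * gv (n - J.card) := by
  have hcc : (Jᶜ).card = n - J.card := by rw [Finset.card_compl, Fintype.card_fin]
  have h1 : polytope (prodRays J) =
      (fun q : Fin n → ℝ => q + fun _ => (1 : ℝ)) ⁻¹' reg J ((J.card : ℝ) + 1) (((n - J.card : ℕ) : ℝ) + 1) := by
    ext x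
    rw [mem_polytope_prod]
    simp only [reg, Set.mem_preimage, Set.mem_ofPred_eq, Pi.add_apply, Finset.sum_add_distrib,
      Finset.sum_const, nsmul_eq_mul, mul_one, hcc]
    constructor
    · rintro ⟨h1, h2, h3⟩
      exact ⟨fun i => by linarith [h1 i], by linarith, by linarith⟩
    · rintro ⟨h1, h2, h3⟩
      exact ⟨fun i => by linarith [h1 i], by linarith, by linarith⟩
  rw [measureReal_def, h1, measure_preimage_add_right, vol_reg J _ _ (by positivity) (by positivity),
    ← ENNReal.ofReal_mul (by positivity), ENNReal.toReal_ofReal (by positivity)]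
  rfl

/-- the symmetry of a block -/
def refl (D : Finset (Fin n)) (i : Fin n) (x : Fin n → ℝ) : Fin n → ℝ :=
  Function.update x i (-∑ k ∈ D, x k)

theorem refl_self (D : Finset (Fin n)) (i : Fin n) (x : Fin n → ℝ) : refl D i x i = -∑ k ∈ D, x k := by
  unfold refl
  rw [Function.update_self]

theorem refl_ne (D : Finset (Fin n)) {i j : Fin n} (h : j ≠ i) (x : Fin n → ℝ) : refl D i x j = x j := by
  unfold refl
  rw [Function.update_of_ne h]

theorem refl_sum {D : Finset (Fin n)} {i : Fin n} (hi : i ∈ D) (x : Fin n → ℝ) :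
    ∑ k ∈ D, refl D i x k = -x i := by
  rw [← Finset.sum_erase_add _ _ hi, refl_self, ← Finset.sum_erase_add D _ hi]
  have : ∑ k ∈ D.erase i, refl D i x k = ∑ k ∈ D.erase i, x k :=
    Finset.sum_congr rfl fun k hk => refl_ne D (Finset.ne_of_mem_erase hk) x
  rw [this]
  ring

theorem refl_sum' {D E : Finset (Fin n)} {i : Fin n} (hi : i ∉ E) (x : Fin n → ℝ) :
    ∑ k ∈ E, refl D i x k = ∑ k ∈ E, x k :=
  Finset.sum_congr rfl fun k hk => refl_ne D (by rintro rfl; exact hi hk) x

theorem refl_inv {D : Finset (Fin n)} {i : Fin n} (hi : i ∈ D) : Function.Involutive (refl D i) := by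
  intro x
  funext j
  by_cases h : j = i
  · subst h
    rw [refl_self, refl_sum hi, neg_neg]
  · rw [refl_ne D h, refl_ne D h]

theorem refl_mem {J D : Finset (Fin n)} (hD : D = J ∨ D = Jᶜ) {i : Fin n} (hi : i ∈ D) {x : Fin n → ℝ}
    (hx : x ∈ polytope (prodRays J)) : refl D i x ∈ polytope (prodRays J) := by
  rw [mem_polytope_prod] at hx ⊢
  obtain ⟨h1, h2, h3⟩ := hx
  have hle : ∑ k ∈ D, x k ≤ 1 := by
    rcases hD with rfl | rfl <;> assumption
  refine ⟨fun j => ?_, ?_, ?_⟩
  · by_cases h : j = i
    · subst h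
      rw [refl_self]
      linarith
    · rw [refl_ne D h]
      exact h1 j
  · rcases hD with rfl | rfl
    · rw [refl_sum hi]
      linarith [h1 i]
    · rw [refl_sum' (Finset.mem_compl.1 hi)]
      exact h2
  · rcases hD with rfl | rfl
    · rw [refl_sum' (fun h => Finset.mem_compl.1 h hi)]
      exact h3
    · rw [refl_sum hi]
      linarith [h1 i]

theorem refl_preserving {D : Finset (Fin n)} {i : Fin n} (hi : i ∈ D) :
    MeasurePreserving (refl D i) (volume : Measure (Fin n → ℝ)) volume := by
  classical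
  set a : Fin n → ℝ := fun k => if k ∈ D then -1 else 0 with ha
  set M : Matrix (Fin n) (Fin n) ℝ := (1 : Matrix (Fin n) (Fin n) ℝ).updateRow i
    (∑ k, a k • (1 : Matrix (Fin n) (Fin n) ℝ) k) with hM
  have hdet : M.det = -1 := by
    rw [hM, Matrix.det_updateRow_sum, Matrix.det_one, ha]
    simp [hi]
  have hL : refl D i = ⇑(Matrix.toLin' M) := by
    funext x
    rw [Matrix.toLin'_apply]
    funext j
    by_cases h : j = i
    · subst h
      rw [refl_self, Matrix.mulVec, dotProduct, hM]
      simp only [Matrix.updateRow_self, Finset.sum_apply, Pi.smul_apply, smul_eq_mul, Matrix.one_apply, mul_ite,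
        mul_one, mul_zero, Finset.sum_ite_eq', Finset.mem_univ, if_true, ha, ite_mul, neg_mul, one_mul, zero_mul]
      rw [Finset.sum_ite_mem, Finset.univ_inter, Finset.sum_neg_distrib]
    · rw [refl_ne D h, Matrix.mulVec, hM, Matrix.updateRow_ne h]
      rw [show (1 : Matrix (Fin n) (Fin n) ℝ) j ⬝ᵥ x = ((1 : Matrix (Fin n) (Fin n) ℝ).mulVec x) j from rfl,
        Matrix.one_mulVec]
  have hd : LinearMap.det (Matrix.toLin' M) = -1 := by rw [LinearMap.det_toLin', hdet]
  refine ⟨?_, ?_⟩
  · rw [hL]
    exact (Matrix.toLin' M).continuous_of_finiteDimensional.measurable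
  · rw [hL, Real.map_linearMap_volume_pi_eq_smul_volume_pi (by rw [hd]; norm_num), hd]
    norm_num

theorem prod_bary (J : Finset (Fin n)) : BarycentreZero (prodRays J) := by
  intro i
  obtain ⟨D, hD, hi⟩ : ∃ D, (D = J ∨ D = Jᶜ) ∧ i ∈ D := by
    by_cases h : i ∈ J
    · exact ⟨J, Or.inl rfl, h⟩
    · exact ⟨Jᶜ, Or.inr rfl, Finset.mem_compl.2 h⟩
  -- boundedness
  have hb : Bornology.IsBounded (polytope (prodRays J)) := by
    rw [isBounded_iff_forall_norm_le]
    refine ⟨n + 1, fun x hx => ?_⟩
    rw [mem_polytope_prod] at hx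
    obtain ⟨h1, h2, h3⟩ := hx
    rw [pi_norm_le_iff_of_nonneg (by positivity)]
    intro j
    rw [Real.norm_eq_abs, abs_le]
    have hn : (0 : ℝ) ≤ n := Nat.cast_nonneg n
    refine ⟨by linarith [h1 j], ?_⟩
    have key : ∀ E : Finset (Fin n), j ∈ E → ∑ k ∈ E, x k ≤ 1 → x j ≤ n + 1 := by
      intro E hj hE
      have h4 : ∑ k ∈ E.erase j, (-1 : ℝ) ≤ ∑ k ∈ E.erase j, x k := Finset.sum_le_sum fun k _ => h1 k
      rw [← Finset.sum_erase_add _ _ hj] at hE
      rw [Finset.sum_const, nsmul_eq_mul, mul_neg, mul_one] at h4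
      have h5 : ((E.erase j).card : ℝ) ≤ n := by
        have := Finset.card_le_univ (E.erase j)
        rw [Fintype.card_fin] at this
        exact_mod_cast this
      linarith
    by_cases h : j ∈ J
    · exact key J h h2
    · exact key Jᶜ (Finset.mem_compl.2 h) h3
  have hK : IsCompact (polytope (prodRays J)) := Metric.isCompact_of_isClosed_isBounded (polytope_closed _) hb
  have hint : ∀ k : Fin n, Integrable (fun x : Fin n → ℝ => x k) (volume.restrict (polytope (prodRays J))) :=
    fun k => (continuous_apply k).continuousOn.integrableOn_compact hK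
  have hstep : ∀ j ∈ D, ∫ x in polytope (prodRays J), x j = -∑ k ∈ D, ∫ x in polytope (prodRays J), x k := by
    intro j hj
    have hpre : refl D j ⁻¹' (polytope (prodRays J)) = polytope (prodRays J) := by
      ext x
      constructor
      · intro hx
        have := refl_mem hD hj hx
        rwa [refl_inv hj x] at this
      · intro hx
        exact refl_mem hD hj hx
    have hemb : MeasurableEmbedding (refl D j) :=
      (MeasurableEquiv.ofInvolutive (refl D j) (refl_inv hj) (refl_preserving hj).measurable).measurableEmbedding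
    have h1 := (refl_preserving hj).setIntegral_preimage_emb hemb (fun x => x j) (polytope (prodRays J))
    rw [hpre] at h1
    rw [← h1]
    simp only [refl_self]
    rw [integral_neg, integral_finsetSum _ fun k _ => hint k]
  have hsum : ∑ k ∈ D, ∫ x in polytope (prodRays J), x k = 0 := by
    set S := ∑ k ∈ D, ∫ x in polytope (prodRays J), x k with hS
    have h1 : S = -(D.card : ℝ) * S := by
      conv_lhs => rw [hS]
      rw [Finset.sum_congr rfl hstep, Finset.sum_const, nsmul_eq_mul]
      ring
    have h2 : (0 : ℝ) ≤ D.card := Nat.cast_nonneg _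
    have h3 : (1 + (D.card : ℝ)) * S = 0 := by linarith
    have h4 : 0 < 1 + (D.card : ℝ) := by linarith
    exact (mul_eq_zero.1 h3).resolve_left h4.ne'
  rw [hstep i hi, hsum, neg_zero]

theorem negSum_apply_mem {J : Finset (Fin n)} {i : Fin n} (h : i ∈ J) : negSum J i = -1 := if_pos h

theorem negSum_apply_notMem {J : Finset (Fin n)} {i : Fin n} (h : i ∉ J) : negSum J i = 0 := if_neg h

theorem prod_isFano {J : Finset (Fin n)} (hJ : J.Nonempty) (hJc : (Jᶜ).Nonempty) : IsFano (prodRays J) := by
  classical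
  refine ⟨fun v hv m hm => ?_, ?_, fun v hv => ?_⟩
  · rcases mem_prodRays.1 hv with rfl | rfl | ⟨i, rfl⟩
    · obtain ⟨j, hj⟩ := hJ
      have := hm j
      rw [negSum_apply_mem hj] at this
      exact isUnit_of_dvd_unit this (by decide)
    · obtain ⟨j, hj⟩ := hJc
      have := hm j
      rw [negSum_apply_mem hj] at this
      exact isUnit_of_dvd_unit this (by decide)
    · have := hm i
      rw [Pi.single_eq_same] at this
      exact isUnit_of_dvd_one this
  · rw [eq_top_iff]
    rintro x -
    set M : ℝ := ∑ i, |x i| with hM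
    have hM0 : 0 ≤ M := Finset.sum_nonneg fun i _ => abs_nonneg _
    have hxM : ∀ i, 0 ≤ x i + M := by
      intro i
      have h1 : |x i| ≤ M := Finset.single_le_sum (f := fun i => |x i|) (fun i _ => abs_nonneg _) (Finset.mem_univ i)
      have h2 := neg_abs_le (x i)
      linarith
    have hx : x = ∑ i, (⟨x i + M, hxM i⟩ : NNReal) • emb (Pi.single i 1 : Fin n → ℤ) +
        ((⟨M, hM0⟩ : NNReal) • emb (negSum J) + (⟨M, hM0⟩ : NNReal) • emb (negSum Jᶜ)) := by
      funext j
      have e1 : (∑ i, (⟨x i + M, hxM i⟩ : NNReal) • emb (Pi.single i 1 : Fin n → ℤ)) j = x j + M := by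
        rw [Finset.sum_apply, Finset.sum_eq_single j]
        · show (x j + M) * ((Pi.single j 1 : Fin n → ℤ) j : ℝ) = x j + M
          rw [Pi.single_eq_same, Int.cast_one, mul_one]
        · intro k _ hk
          show (x k + M) * ((Pi.single k 1 : Fin n → ℤ) j : ℝ) = 0
          rw [Pi.single_eq_of_ne (Ne.symm hk), Int.cast_zero, mul_zero]
        · intro h
          exact absurd (Finset.mem_univ j) h
      have e2 : ((⟨M, hM0⟩ : NNReal) • emb (negSum J) + (⟨M, hM0⟩ : NNReal) • emb (negSum Jᶜ)) j = -M := by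
        show M * (negSum J j : ℝ) + M * (negSum Jᶜ j : ℝ) = -M
        by_cases h : j ∈ J
        · rw [negSum_apply_mem h, negSum_apply_notMem (fun h' => Finset.mem_compl.1 h' h)]
          push_cast
          ring
        · rw [negSum_apply_notMem h, negSum_apply_mem (Finset.mem_compl.2 h)]
          push_cast
          ring
      rw [Pi.add_apply, e1, e2]
      ring
    rw [hx]
    have hmem : ∀ v ∈ prodRays J, emb v ∈ Submodule.span NNReal (emb '' (prodRays J : Set (Fin n → ℤ))) :=
      fun v hv => Submodule.subset_span ⟨v, hv, rfl⟩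
    refine Submodule.add_mem _ (Submodule.sum_mem _ fun i _ => Submodule.smul_mem _ _ ?_)
      (Submodule.add_mem _ (Submodule.smul_mem _ _ ?_) (Submodule.smul_mem _ _ ?_))
    · exact hmem _ (mem_prodRays.2 (Or.inr (Or.inr ⟨i, rfl⟩)))
    · exact hmem _ (mem_prodRays.2 (Or.inl rfl))
    · exact hmem _ (mem_prodRays.2 (Or.inr (Or.inl rfl)))
  · -- each generator gives a facet
    have hblock : ∀ D E : Finset (Fin n), (D = J ∧ E = Jᶜ ∨ D = Jᶜ ∧ E = J) → ∃ x : Fin n → ℝ,
        pair x (negSum D) = -1 ∧ pair x (negSum E) = 0 ∧ ∀ i, 0 ≤ x i := by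
      intro D E hDE
      have hDne : D.Nonempty := by rcases hDE with ⟨rfl, -⟩ | ⟨rfl, -⟩ <;> assumption
      have hdisj : ∀ i ∈ E, i ∉ D := by
        rcases hDE with ⟨rfl, rfl⟩ | ⟨rfl, rfl⟩
        · intro i hi
          exact Finset.mem_compl.1 hi
        · intro i hi h
          exact Finset.mem_compl.1 h hi
      refine ⟨fun i => if i ∈ D then 1 / (D.card : ℝ) else 0, ?_, ?_, fun i => ?_⟩
      · rw [pair_negSum, Finset.sum_congr rfl (fun i hi => if_pos hi), Finset.sum_const, nsmul_eq_mul,
          mul_one_div_cancel]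
        exact_mod_cast (Finset.card_pos.2 hDne).ne'
      · rw [pair_negSum, Finset.sum_eq_zero fun i hi => if_neg (hdisj i hi), neg_zero]
      · dsimp only
        split_ifs <;> positivity
    rcases mem_prodRays.1 hv with rfl | rfl | ⟨i, rfl⟩
    · obtain ⟨x, h1, h2, h3⟩ := hblock J Jᶜ (Or.inl ⟨rfl, rfl⟩)
      refine ⟨x, fun w hw => ?_, h1, fun w hw hne => ?_⟩
      · rcases mem_prodRays.1 hw with rfl | rfl | ⟨j, rfl⟩
        · rw [h1]
        · rw [h2]; norm_num
        · rw [pair_single]; linarith [h3 j]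
      · rcases mem_prodRays.1 hw with rfl | rfl | ⟨j, rfl⟩
        · exact absurd rfl hne
        · rw [h2]; norm_num
        · rw [pair_single]; linarith [h3 j]
    · obtain ⟨x, h1, h2, h3⟩ := hblock Jᶜ J (Or.inr ⟨rfl, rfl⟩)
      refine ⟨x, fun w hw => ?_, h1, fun w hw hne => ?_⟩
      · rcases mem_prodRays.1 hw with rfl | rfl | ⟨j, rfl⟩
        · rw [h2]; norm_num
        · rw [h1]
        · rw [pair_single]; linarith [h3 j]
      · rcases mem_prodRays.1 hw with rfl | rfl | ⟨j, rfl⟩
        · rw [h2]; norm_num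
        · exact absurd rfl hne
        · rw [pair_single]; linarith [h3 j]
    · set x : Fin n → ℝ := fun k => if k = i then -1 else 0 with hx
      have hs : ∀ D : Finset (Fin n), 0 ≤ pair x (negSum D) := by
        intro D
        rw [pair_negSum, ← Finset.sum_neg_distrib]
        refine Finset.sum_nonneg fun k _ => ?_
        rw [hx]
        dsimp only
        split_ifs <;> norm_num
      have hxi : pair x (Pi.single i 1 : Fin n → ℤ) = -1 := by rw [pair_single, hx]; simp
      have hxj : ∀ j, j ≠ i → pair x (Pi.single j 1 : Fin n → ℤ) = 0 := fun j hj => by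
        rw [pair_single, hx]; simp [hj]
      refine ⟨x, fun w hw => ?_, hxi, fun w hw hne => ?_⟩
      · rcases mem_prodRays.1 hw with rfl | rfl | ⟨j, rfl⟩
        · linarith [hs J]
        · linarith [hs Jᶜ]
        · by_cases h : j = i
          · rw [h, hxi]
          · rw [hxj j h]; norm_num
      · rcases mem_prodRays.1 hw with rfl | rfl | ⟨j, rfl⟩
        · linarith [hs J]
        · linarith [hs Jᶜ]
        · by_cases h : j = i
          · exact absurd (by rw [h]) hne
          · rw [hxj j h]; norm_num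

theorem prod_not_proj {J : Finset (Fin n)} (hJ : J.Nonempty) (hJc : (Jᶜ).Nonempty) :
    ¬ IsProjectiveSpace (prodRays J) := by
  classical
  rintro ⟨A, -, hA⟩
  have h1 : (prodRays J).card ≤ n + 1 := by
    rw [hA]
    refine (Finset.card_insert_le _ _).trans ?_
    have := Finset.card_image_le (s := (Finset.univ : Finset (Fin n))) (f := A)
    rw [Finset.card_univ, Fintype.card_fin] at this
    omega
  obtain ⟨j, hj⟩ := hJ
  obtain ⟨k, hk⟩ := hJc
  have h2 : negSum Jᶜ ∉ (Finset.univ.image fun i => (Pi.single i 1 : Fin n → ℤ)) := by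
    intro h
    obtain ⟨i, -, hi⟩ := Finset.mem_image.1 h
    have := congrFun hi k
    rw [negSum_apply_mem hk] at this
    by_cases hik : k = i
    · subst hik
      rw [Pi.single_eq_same] at this
      omega
    · rw [Pi.single_eq_of_ne hik] at this
      omega
  have h3 : negSum J ∉ insert (negSum Jᶜ) (Finset.univ.image fun i => (Pi.single i 1 : Fin n → ℤ)) := by
    intro h
    rw [Finset.mem_insert] at h
    rcases h with h | h
    · have := congrFun h j
      rw [negSum_apply_mem hj, negSum_apply_notMem (fun h' => Finset.mem_compl.1 h' hj)] at this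
      omega
    · obtain ⟨i, -, hi⟩ := Finset.mem_image.1 h
      have := congrFun hi j
      rw [negSum_apply_mem hj] at this
      by_cases hik : j = i
      · subst hik
        rw [Pi.single_eq_same] at this
        omega
      · rw [Pi.single_eq_of_ne hik] at this
        omega
  have h4 : Function.Injective fun i => (Pi.single i 1 : Fin n → ℤ) := by
    intro a b hab
    by_contra hne
    have := congrFun hab a
    simp only [Pi.single_eq_same] at this
    rw [Pi.single_eq_of_ne hne] at this
    omega
  have h5 : (prodRays J).card = n + 2 := by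
    unfold prodRays
    rw [Finset.card_insert_of_notMem h3, Finset.card_insert_of_notMem h2, Finset.card_image_of_injective _ h4,
      Finset.card_univ, Fintype.card_fin]
  omega

end Pool.Agent.H2.TF
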