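import Pool.Agent.H2.TF.Ex
import Pool.Agent.H2.TF.Eq2

/-!
# The volume gap for K-semistable toric Fano varieties, with arbitrary toric singularities

A toric Fano variety is determined by the set `V` of the primitive generators of the rays of its fan, the vertices of a
Fano polytope; its anticanonical volume is `n!` times the volume of the polytope `P = {x | ⟨x, v⟩ ≥ -1, v ∈ V}`, and it
is K-semistable if and only if the barycentre of `P` is the origin. We show that for all `n ≥ 2` the largest volume of
a K-semistable toric Fano variety of dimension `n` other than `ℙ^n` is `2 n ^ n`, and that `ℙ^1 × ℙ^(n-1)` is the only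
variety which attains it. There is no condition on the singularities; the library's `ToricGap` is the bound in the
`ℚ`-factorial case.

Proof. (a) For any `n` elements `c j` of `V` with determinant `δ ≠ 0` the coordinates `z_j = ⟨x, c j⟩ + 1` are nonnegative on
`P`, their sum has mean `n`, and the part of `P` with `∑ z_j ≤ t` has volume at most `t ^ n / (n! |δ|)`; this gives
`n! vol P ≤ (n + 1) ^ n / |δ|` (`det_bound`). So we may assume that all minors of size `n` of `V` are `0, 1, -1`.
(b) Let `C ⊆ V` be a smallest set with a dependence with positive coefficients. By Cramer's rule its coefficients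
are equal, so the sum of `C` is zero. If `C` has at most `n` elements, they and further elements of `V` give unimodular
coordinates in which `P` lies in the product of a simplex and an orthant, and the same argument as in (a) for the
second factor bounds the volume by that of `ℙ^(k-1) × ℙ^(n-k+1)`, `k = |C|` (`vol_bound`), at most `2 n ^ n`.
(c) If `C` has `n + 1` elements and `v ∈ V` is not in `C`, then `v` is the sum of some elements of `C` by Cramer's rule,
and `v` together with the other elements of `C` is a smaller set with sum zero. So `V = C`, and the variety is `ℙ^n`.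
(d) If the volume is `2 n ^ n`, then `(n + 1) ^ n < 4 n ^ n` excludes (a) with `|δ| ≥ 2`, in (b) one of the two factors has
dimension `1`, and the mean of the second factor forces `P` to be the product of the two simplices (`null_part`,
`ae_reg`); as the elements of `V` define facets of `P`, the set `V` is that of `ℙ^1 × ℙ^(n-1)`.
-/

set_option autoImplicit false

namespace Pool.Agent.H2.TF.Result

open Pool.Agent.H2.TF

/-- **Result.** Let `n ≥ 2`. (1) The largest volume of a toric Fano variety of dimension `n`, not `ℙ^n`, whose polytope
has barycentre `0` is `2 n ^ n`. (2) Such a variety has volume `2 n ^ n` if and only if it is `ℙ^1 × ℙ^(n-1)`. (3) Let `V` be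
a finite set of nonzero lattice vectors (not necessarily primitive, not necessarily vertices) such that every real
vector is a combination of elements of `V` with nonnegative coefficients, and let the barycentre of
`P = {x | ⟨x, v⟩ ≥ -1 for all v ∈ V}` be the origin. Then `n! vol P |det c| ≤ (n + 1) ^ n` for any `n` elements `c j` of
`V`, and `n! vol P ≤ 2 n ^ n` unless `V` consists of a basis of the lattice and minus its sum. -/
theorem result (n : ℕ) (hn : 2 ≤ n) :
    IsGreatest {r : ℝ | ∃ V : Finset (Fin n → ℤ), IsFano V ∧ BarycentreZero V ∧ ¬ IsProjectiveSpace V ∧ r = vol V}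
      (2 * (n : ℝ) ^ n) ∧
    (∀ V : Finset (Fin n → ℤ), IsFano V → BarycentreZero V → ¬ IsProjectiveSpace V →
      (vol V = 2 * (n : ℝ) ^ n ↔ IsLineTimesProjective V)) ∧
    (∀ V : Finset (Fin n → ℤ), (0 : Fin n → ℤ) ∉ V →
      Submodule.span NNReal (emb '' (V : Set (Fin n → ℤ))) = ⊤ → BarycentreZero V →
      (∀ c : Fin n → (Fin n → ℤ), (∀ j, c j ∈ V) → vol V * |((Matrix.of c).det : ℝ)| ≤ ((n : ℝ) + 1) ^ n) ∧
      (¬ IsProjectiveSpace V → vol V ≤ 2 * (n : ℝ) ^ n)) := by
  have h0 : ∀ V : Finset (Fin n → ℤ), IsFano V → (0 : Fin n → ℤ) ∉ V := by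
    intro V hV h
    have := hV.primitive 0 h 0 (fun i => by simp)
    simp at this
  refine ⟨⟨?_, ?_⟩, fun V hV hbar hP => ⟨unique hn hV (h0 V hV) hbar hP, vol_line hn⟩,
    fun V h0 hV hbar => ⟨det_bound (by omega) hV hbar, upper hn hV h0 hbar⟩⟩
  · set J : Finset (Fin n) := {⟨0, by omega⟩} with hJdef
    have hJ1 : J.card = 1 := Finset.card_singleton _
    have hJ : J.Nonempty := Finset.card_pos.1 (by omega)
    have hJc : (Jᶜ).Nonempty := Finset.card_pos.1 (by rw [Finset.card_compl, Fintype.card_fin]; omega)
    refine ⟨prodRays J, prod_isFano hJ hJc, prod_bary J, prod_not_proj hJ hJc, ?_⟩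
    rw [vol, prod_volume, hJ1]
    obtain ⟨m, rfl⟩ : ∃ m, n = m + 1 := ⟨n - 1, by omega⟩
    have h3 : m + 1 - 1 = m := rfl
    rw [h3]
    unfold gv
    rw [Nat.factorial_succ]
    have h4 : (m.factorial : ℝ) ≠ 0 := by positivity
    push_cast
    rw [pow_succ ((m : ℝ) + 1) m]
    field_simp
    norm_num
  · rintro r ⟨V, hV, hbar, hP, rfl⟩
    exact upper hn hV.complete (h0 V hV) hbar hP

end Pool.Agent.H2.TF.Result
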