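import Mathlib

/-!
# Volumes of polytopes with barycentre `0`

The lemmas of this file are copied from the library (`R891/TG/Num`, `R891/TG/Vol` of helper891,
`TH984/GB/Simplex`, `Helper774/KStab/Polytope`); `vol_bound` is their theorem for an arbitrary closed bounded set and
any `n` of the inequalities which define it.
-/

set_option autoImplicit false

open scoped ENNReal
open MeasureTheory

noncomputable section

namespace Pool.Agent.H2.TF



/-- `(a+1)^a / a!`, the lattice volume of the moment polytope of `ℙ^a` divided by `a!`. -/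
def gv (a : ℕ) : ℝ := ((a : ℝ) + 1) ^ a / (a.factorial : ℝ)

/-- ratio -/
def rv (a : ℕ) : ℝ := (((a : ℝ) + 2) / ((a : ℝ) + 1)) ^ (a + 1)

theorem gv_pos (a : ℕ) : 0 < gv a := by
  unfold gv
  positivity

theorem rv_pos (a : ℕ) : 0 < rv a := by
  unfold rv
  positivity

theorem gv_succ (a : ℕ) : gv (a + 1) = gv a * rv a := by
  unfold gv rv
  rw [Nat.factorial_succ]
  have h1 : (a.factorial : ℝ) ≠ 0 := by positivity
  have h2 : ((a : ℝ) + 1) ≠ 0 := by positivity
  push_cast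
  rw [div_pow]
  have h3 : ((a : ℝ) + 1) ^ (a + 1) ≠ 0 := by positivity
  field_simp
  ring

theorem rv_mono_succ (k : ℕ) : rv k ≤ rv (k + 1) := by
  unfold rv
  push_cast
  set x : ℝ := ((k : ℝ) + 2) / ((k : ℝ) + 1) with hx
  have hx0 : 0 < x := by positivity
  have hy : ((k : ℝ) + 1 + 2) / ((k : ℝ) + 1 + 1) = x * (1 + -(1 / ((k : ℝ) + 2) ^ 2)) := by
    rw [hx]
    field_simp
    ring
  rw [hy, mul_pow]
  have hb : 1 + ((k + 1 + 1 : ℕ) : ℝ) * (-(1 / ((k : ℝ) + 2) ^ 2)) ≤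
      (1 + -(1 / ((k : ℝ) + 2) ^ 2)) ^ (k + 1 + 1) := by
    apply one_add_mul_le_pow
    have h1 : (1 : ℝ) / ((k : ℝ) + 2) ^ 2 ≤ 1 := by
      rw [div_le_one (by positivity)]
      nlinarith [Nat.cast_nonneg (α := ℝ) k]
    linarith
  have h2 : x ^ (k + 1) = x ^ (k + 1 + 1) * (1 + ((k + 1 + 1 : ℕ) : ℝ) * (-(1 / ((k : ℝ) + 2) ^ 2))) := by
    rw [pow_succ x (k + 1), mul_assoc]
    have h3 : x * (1 + ((k + 1 + 1 : ℕ) : ℝ) * (-(1 / ((k : ℝ) + 2) ^ 2))) = 1 := by
      rw [hx]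
      push_cast
      field_simp
      ring
    rw [h3, mul_one]
  rw [h2]
  exact mul_le_mul_of_nonneg_left hb (by positivity)

theorem rv_mono {a b : ℕ} (h : a ≤ b) : rv a ≤ rv b :=
  monotone_nat_of_le_succ rv_mono_succ h

theorem gv_mul_le (a : ℕ) : ∀ b : ℕ, a ≤ b → gv (a + 1) * gv (b + 1) ≤ gv 1 * gv (a + b + 1) := by
  induction a with
  | zero =>
    intro b _
    rw [zero_add, zero_add]
  | succ a ih =>
    intro b hb
    have h1 : gv (a + 1 + 1) * gv (b + 1) ≤ gv (a + 1) * gv (b + 1 + 1) := by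
      rw [gv_succ (a + 1), gv_succ (b + 1)]
      have h2 : rv (a + 1) ≤ rv (b + 1) := rv_mono (by omega)
      have h3 := gv_pos (a + 1)
      have h4 := gv_pos (b + 1)
      nlinarith [mul_le_mul_of_nonneg_left h2 (mul_pos h3 h4).le]
    refine h1.trans ((ih (b + 1) (by omega)).trans (le_of_eq ?_))
    congr 2
    omega

theorem gv_mul_le' {a b : ℕ} (ha : 1 ≤ a) (hb : 1 ≤ b) : gv a * gv b ≤ gv 1 * gv (a + b - 1) := by
  obtain ⟨a, rfl⟩ := Nat.exists_eq_add_of_le' ha
  obtain ⟨b, rfl⟩ := Nat.exists_eq_add_of_le' hb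
  rcases le_total a b with h | h
  · refine (gv_mul_le a b h).trans (le_of_eq ?_)
    congr 2
    omega
  · rw [mul_comm]
    refine (gv_mul_le b a h).trans (le_of_eq ?_)
    congr 2
    omega

/-- `n! g(a) g(b) ≤ 2 n^n` for `a, b ≥ 1`, `n = a + b`. -/
theorem num_main {n a b : ℕ} (ha : 1 ≤ a) (hb : 1 ≤ b) (hn : a + b = n) :
    (n.factorial : ℝ) * (gv a * gv b) ≤ 2 * (n : ℝ) ^ n := by
  have h1 := gv_mul_le' ha hb
  have h2 : (n.factorial : ℝ) * (gv 1 * gv (a + b - 1)) = 2 * (n : ℝ) ^ n := by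
    obtain ⟨m, rfl⟩ : ∃ m, n = m + 1 := ⟨n - 1, by omega⟩
    have h3 : a + b - 1 = m := by omega
    rw [h3]
    unfold gv
    rw [Nat.factorial_succ]
    have h4 : (m.factorial : ℝ) ≠ 0 := by positivity
    push_cast
    rw [pow_succ ((m : ℝ) + 1) m]
    field_simp
    norm_num
  rw [← h2]
  exact mul_le_mul_of_nonneg_left h1 (by positivity)

/-- `(n+1)^n ≤ 4 n^n`. -/
theorem num_sing {n : ℕ} (hn : 1 ≤ n) : ((n : ℝ) + 1) ^ n ≤ 4 * (n : ℝ) ^ n := by
  have h1 := Real.one_add_inv_pow_le_exp (n := n)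
  have h2 : Real.exp 1 ≤ 4 := by
    have := Real.exp_one_lt_d9
    linarith
  have hn0 : (0 : ℝ) < n := by exact_mod_cast hn
  have h3 : ((n : ℝ) + 1) ^ n = (1 + (n : ℝ)⁻¹) ^ n * (n : ℝ) ^ n := by
    rw [← mul_pow]
    congr 1
    field_simp
  rw [h3]
  exact mul_le_mul_of_nonneg_right (h1.trans h2) (by positivity)


section Simplex

open Set Filter Topology

def Sc (n : ℕ) (r : ℝ) : Set (Fin n → ℝ) := {x | (∀ i, 0 ≤ x i) ∧ ∑ i, x i ≤ r}

theorem Sc_meas (n : ℕ) (r : ℝ) : MeasurableSet (Sc n r) := by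
  have h : Sc n r = (⋂ i, {x : Fin n → ℝ | 0 ≤ x i}) ∩ {x | ∑ i, x i ≤ r} := by
    ext x
    simp [Sc]
  rw [h]
  refine (MeasurableSet.iInter fun i => ?_).inter ?_
  · exact measurableSet_le measurable_const (measurable_pi_apply i)
  · exact measurableSet_le (by fun_prop) measurable_const

theorem int_Sc (n : ℕ) (r : ℝ) (hr : 0 ≤ r) :
    ∫⁻ z in Icc (0 : ℝ) r, ENNReal.ofReal ((r - z) ^ n / n.factorial) =
      ENNReal.ofReal (r ^ (n + 1) / (n + 1).factorial) := by
  have hcont : Continuous fun z : ℝ => (r - z) ^ n / (n.factorial : ℝ) := by fun_prop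
  rw [← ofReal_integral_eq_lintegral_ofReal]
  · congr 1
    rw [integral_Icc_eq_integral_Ioc, ← intervalIntegral.integral_of_le hr,
      intervalIntegral.integral_div,
      intervalIntegral.integral_comp_sub_left (fun x => x ^ n) r, integral_pow]
    rw [Nat.factorial_succ]
    push_cast
    have : (n.factorial : ℝ) ≠ 0 := by positivity
    have h2 : (n : ℝ) + 1 ≠ 0 := by positivity
    field_simp
    simp
  · exact hcont.continuousOn.integrableOn_Icc
  · refine (ae_restrict_iff' measurableSet_Icc).mpr (Filter.Eventually.of_forall fun z hz => ?_)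
    have : 0 ≤ r - z := by linarith [hz.2]
    simp only [Pi.zero_apply]
    positivity

theorem vol_Sc (n : ℕ) : ∀ r : ℝ, 0 ≤ r →
    volume (Sc n r) = ENNReal.ofReal (r ^ n / n.factorial) := by
  induction n with
  | zero =>
    intro r hr
    have h : Sc 0 r = univ := by
      ext x
      simp [Sc, hr]
    rw [h]
    simp [volume_pi]
  | succ n ih =>
    intro r hr
    have hA : MeasurableSet {q : ℝ × (Fin n → ℝ) | 0 ≤ q.1 ∧ (∀ i, 0 ≤ q.2 i) ∧
        q.1 + ∑ i, q.2 i ≤ r} := by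
      have h : {q : ℝ × (Fin n → ℝ) | 0 ≤ q.1 ∧ (∀ i, 0 ≤ q.2 i) ∧
        q.1 + ∑ i, q.2 i ≤ r} = {q | 0 ≤ q.1} ∩ ((⋂ i, {q : ℝ × (Fin n → ℝ) | 0 ≤ q.2 i}) ∩
          {q | q.1 + ∑ i, q.2 i ≤ r}) := by
        ext q
        simp
      rw [h]
      refine (measurableSet_le measurable_const measurable_fst).inter
        ((MeasurableSet.iInter fun i => ?_).inter ?_)
      · exact measurableSet_le measurable_const (by fun_prop)
      · exact measurableSet_le (by fun_prop) measurable_const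
    have h1 : volume (Sc (n + 1) r) = volume {q : ℝ × (Fin n → ℝ) | 0 ≤ q.1 ∧ (∀ i, 0 ≤ q.2 i) ∧
        q.1 + ∑ i, q.2 i ≤ r} := by
      rw [← (volume_preserving_piFinSuccAbove (fun _ : Fin (n + 1) => ℝ) 0).measure_preimage
        hA.nullMeasurableSet]
      congr 1
      ext x
      simp only [Sc, Set.mem_ofPred_eq, Set.mem_preimage]
      rw [Fin.sum_univ_succ, Fin.forall_fin_succ, and_assoc]
      simp [MeasurableEquiv.piFinSuccAbove, Fin.tail]
    rw [h1, Measure.volume_eq_prod, Measure.prod_apply hA, ← int_Sc n r hr,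
      ← lintegral_indicator measurableSet_Icc]
    congr 1
    ext z
    by_cases hz : z ∈ Icc (0 : ℝ) r
    · rw [indicator_of_mem hz, ← ih (r - z) (by linarith [hz.2])]
      congr 1
      ext w
      simp only [Sc, Set.mem_ofPred_eq, Set.mem_preimage]
      constructor
      · rintro ⟨_, h2, h3⟩
        exact ⟨h2, by linarith⟩
      · rintro ⟨h2, h3⟩
        exact ⟨hz.1, h2, by linarith⟩
    · rw [indicator_of_notMem hz]
      have : (Prod.mk z ⁻¹' {q : ℝ × (Fin n → ℝ) | 0 ≤ q.1 ∧ (∀ i, 0 ≤ q.2 i) ∧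
        q.1 + ∑ i, q.2 i ≤ r}) = ∅ := by
        ext w
        simp only [Set.mem_ofPred_eq, Set.mem_preimage, Set.mem_empty_iff_false, iff_false]
        rintro ⟨h1, h2, h3⟩
        apply hz
        have h4 : 0 ≤ ∑ i, w i := Finset.sum_nonneg fun i _ => h2 i
        exact ⟨h1, by linarith⟩
      rw [this, measure_empty]



end Simplex

variable {n : ℕ}

/-- layer cake -/
theorem layer_cake (P : Set (Fin n → ℝ)) (hb : Bornology.IsBounded P) (hcl : IsClosed P)
    (b : Fin n → ℝ) (A : ℝ) (hpos : ∀ p ∈ P, 0 ≤ ∑ i, b i * p i + A) :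
    ∫⁻ t in Set.Ioi (0 : ℝ), volume (P ∩ {p | t ≤ ∑ i, b i * p i + A}) =
      ENNReal.ofReal (∑ i, b i * (∫ p in P, p i) + A * volume.real P) := by
  have hK : IsCompact P := Metric.isCompact_of_isClosed_isBounded hcl hb
  have hc : Continuous fun p : Fin n → ℝ => ∑ i, b i * p i + A := by fun_prop
  have hnn : 0 ≤ᵐ[volume.restrict P] fun p : Fin n → ℝ => ∑ i, b i * p i + A := by
    rw [Filter.EventuallyLE, ae_restrict_iff' hcl.measurableSet]
    exact Filter.Eventually.of_forall fun p hp => hpos p hp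
  have hint : ∀ g : (Fin n → ℝ) → ℝ, Continuous g → Integrable g (volume.restrict P) :=
    fun g hg => hg.continuousOn.integrableOn_compact hK
  have h1 := lintegral_eq_lintegral_meas_le (volume.restrict P) hnn hc.measurable.aemeasurable
  have h2 := ofReal_integral_eq_lintegral_ofReal (hint _ hc) hnn
  have h3 : ∀ t : ℝ, volume (P ∩ {p | t ≤ ∑ i, b i * p i + A}) =
      (volume.restrict P) {p | t ≤ ∑ i, b i * p i + A} := by
    intro t
    rw [Measure.restrict_apply (isClosed_le continuous_const hc).measurableSet, Set.inter_comm]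
  simp only [h3]
  rw [← h1, ← h2]
  congr 1
  rw [integral_add (hint _ (by fun_prop)) (hint _ continuous_const),
    integral_finsetSum _ (fun i _ => hint _ (by fun_prop))]
  congr 1
  · exact Finset.sum_congr rfl fun i _ => integral_const_mul _ _
  · rw [integral_const, smul_eq_mul, measureReal_restrict_apply_univ, mul_comm]


theorem meas_cl (ι : Type) [Fintype ι] (v : ℝ) :
    MeasurableSet {s : ι → ℝ | (∀ i, 0 ≤ s i) ∧ ∑ i, s i ≤ v} := by
  have h1 : MeasurableSet {s : ι → ℝ | ∀ i, 0 ≤ s i} := by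
    rw [show {s : ι → ℝ | ∀ i, 0 ≤ s i} = ⋂ i, {s | 0 ≤ s i} by ext; simp]
    exact MeasurableSet.iInter fun i => measurableSet_le measurable_const (measurable_pi_apply i)
  have h2 : MeasurableSet {s : ι → ℝ | ∑ i, s i ≤ v} :=
    measurableSet_le (Finset.measurable_sum _ fun i _ => measurable_pi_apply i) measurable_const
  exact h1.inter h2

theorem vol_cl (ι : Type) [Fintype ι] (v : ℝ) (hv : 0 ≤ v) :
    volume {s : ι → ℝ | (∀ i, 0 ≤ s i) ∧ ∑ i, s i ≤ v} =
      ENNReal.ofReal (v ^ Fintype.card ι / (Fintype.card ι).factorial) := by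
  classical
  have e : Fin (Fintype.card ι) ≃ ι := (Fintype.equivFin ι).symm
  have hmp := volume_measurePreserving_piCongrLeft (fun _ : ι => ℝ) e
  have hms := meas_cl ι v
  rw [← vol_Sc (Fintype.card ι) v hv,
    ← hmp.measure_preimage hms.nullMeasurableSet]
  congr 1
  ext x
  have happ : ∀ i, (MeasurableEquiv.piCongrLeft (fun _ : ι => ℝ) e) x (e i) = x i := by
    intro i
    exact Equiv.piCongrLeft_apply_apply (P := fun _ : ι => ℝ) e x i
  have hsum : ∑ i, (MeasurableEquiv.piCongrLeft (fun _ : ι => ℝ) e) x i = ∑ i, x i := by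
    rw [← Equiv.sum_comp e]
    exact Finset.sum_congr rfl fun i _ => happ i
  simp only [Set.mem_preimage, Set.mem_ofPred_eq, Sc]
  rw [hsum]
  constructor
  · rintro ⟨h1, h2⟩
    exact ⟨fun i => by rw [← happ i]; exact h1 (e i), h2⟩
  · rintro ⟨h1, h2⟩
    refine ⟨fun i => ?_, h2⟩
    obtain ⟨j, rfl⟩ := e.surjective i
    rw [happ j]
    exact h1 j

theorem vol_cl' (ι : Type) (i1 i2 : Fintype ι) (v : ℝ) (hv : 0 ≤ v) :
    (@MeasureTheory.MeasureSpace.volume (ι → ℝ) (@MeasureTheory.MeasureSpace.pi ι i1 (fun _ => ℝ) _))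
      {s : ι → ℝ | (∀ i, 0 ≤ s i) ∧ (@Finset.univ ι i2).sum (fun i => s i) ≤ v} =
      ENNReal.ofReal (v ^ (@Fintype.card ι i2) / (@Fintype.card ι i2).factorial) := by
  obtain rfl : i1 = i2 := Subsingleton.elim _ _
  exact vol_cl ι v hv

/-- product of two simplices -/
def reg (I : Finset (Fin n)) (A t : ℝ) : Set (Fin n → ℝ) :=
  {z | (∀ i, 0 ≤ z i) ∧ ∑ i ∈ I, z i ≤ A ∧ ∑ i ∈ Iᶜ, z i ≤ t}

theorem vol_reg (I : Finset (Fin n)) (A t : ℝ) (hA : 0 ≤ A) (ht : 0 ≤ t) :
    volume (reg I A t) = ENNReal.ofReal (A ^ I.card / I.card.factorial) *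
      ENNReal.ofReal (t ^ (n - I.card) / (n - I.card).factorial) := by
  classical
  have hmp := volume_preserving_piEquivPiSubtypeProd (fun _ : Fin n => ℝ) (fun i => i ∈ I)
  set S1 : Set ({i // i ∈ I} → ℝ) := {s | (∀ i, 0 ≤ s i) ∧ ∑ i, s i ≤ A} with hS1
  set S2 : Set ({i // ¬ i ∈ I} → ℝ) := {s | (∀ i, 0 ≤ s i) ∧ ∑ i, s i ≤ t} with hS2
  have hm : MeasurableSet (S1 ×ˢ S2) := (meas_cl _ A).prod (meas_cl _ t)
  have hpre : reg I A t = (MeasurableEquiv.piEquivPiSubtypeProd (fun _ : Fin n => ℝ)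
      (fun i => i ∈ I)) ⁻¹' (S1 ×ˢ S2) := by
    ext z
    simp only [reg, Set.mem_preimage, Set.mem_prod, Set.mem_ofPred_eq, hS1, hS2]
    have e1 : ∑ i : {i // i ∈ I}, (MeasurableEquiv.piEquivPiSubtypeProd (fun _ : Fin n => ℝ)
        (fun i => i ∈ I) z).1 i = ∑ i ∈ I, z i := by
      rw [← Finset.sum_coe_sort I z]
      rfl
    have e2 : ∑ i : {i // ¬ i ∈ I}, (MeasurableEquiv.piEquivPiSubtypeProd (fun _ : Fin n => ℝ)
        (fun i => i ∈ I) z).2 i = ∑ i ∈ Iᶜ, z i := by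
      exact (Finset.sum_subtype (Iᶜ) (p := fun i => ¬ i ∈ I) (by intro x; simp) z).symm
    rw [e1, e2]
    constructor
    · rintro ⟨h1, h2, h3⟩
      exact ⟨⟨fun i => h1 i, h2⟩, ⟨fun i => h1 i, h3⟩⟩
    · rintro ⟨⟨h1, h2⟩, ⟨h3, h4⟩⟩
      refine ⟨fun i => ?_, h2, h4⟩
      by_cases hi : i ∈ I
      · exact h1 ⟨i, hi⟩
      · exact h3 ⟨i, hi⟩
  have hc1 : Fintype.card {i // i ∈ I} = I.card := Fintype.card_coe I
  have hc2 : Fintype.card {i // ¬ i ∈ I} = n - I.card := by
    rw [Fintype.card_subtype_compl, Fintype.card_fin, hc1]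
  rw [hpre, hmp.measure_preimage hm.nullMeasurableSet, Measure.volume_eq_prod, Measure.prod_prod,
    ← hc2, ← hc1]
  congr 1
  · exact vol_cl' {i // i ∈ I} _ _ A hA
  · exact vol_cl' {i // ¬ i ∈ I} _ _ t ht


/-- the coordinates at the vertex `σ` -/
def zc (R : Matrix (Fin n) (Fin n) ℤ) (p : Fin n → ℝ) (j : Fin n) : ℝ :=
  ∑ i, p i * ((R i j : ℤ) : ℝ) + 1

theorem vol_zc (R : Matrix (Fin n) (Fin n) ℤ) (hR : R.det ≠ 0) (S : Set (Fin n → ℝ)) :
    volume {p | zc R p ∈ S} = ENNReal.ofReal (1 / |(R.det : ℝ)|) * volume S := by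
  set M : Matrix (Fin n) (Fin n) ℝ := (R.map (fun z : ℤ => (z : ℝ))).transpose with hM
  have hdetM : M.det = (R.det : ℝ) := by
    rw [hM, Matrix.det_transpose]
    exact (Int.cast_det (R := ℝ) R).symm
  have hdet : LinearMap.det (Matrix.toLin' M) ≠ 0 := by
    rw [LinearMap.det_toLin', hdetM]
    exact_mod_cast hR
  have h1 : {p | zc R p ∈ S} =
      (Matrix.toLin' M) ⁻¹' ((fun q : Fin n → ℝ => q + fun _ => (1 : ℝ)) ⁻¹' S) := by
    ext p
    simp only [Set.mem_ofPred_eq, Set.mem_preimage]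
    have h2 : zc R p = (Matrix.toLin' M) p + fun _ => (1 : ℝ) := by
      funext j
      rw [Matrix.toLin'_apply, Pi.add_apply]
      unfold zc
      congr 1
      simp only [Matrix.mulVec, dotProduct, hM, Matrix.transpose_apply, Matrix.map_apply]
      exact Finset.sum_congr rfl fun i _ => mul_comm _ _
    rw [h2]
  rw [h1, MeasureTheory.Measure.addHaar_preimage_linearMap _ hdet, LinearMap.det_toLin', hdetM,
    measure_preimage_add_right]
  rw [abs_inv, one_div]

/-- `∑_{j ∉ I} z_j` as an affine function. -/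
theorem zc_sum (R : Matrix (Fin n) (Fin n) ℤ) (J : Finset (Fin n)) (p : Fin n → ℝ) :
    ∑ j ∈ J, zc R p j = ∑ i, (∑ j ∈ J, ((R i j : ℤ) : ℝ)) * p i + (J.card : ℝ) := by
  unfold zc
  rw [Finset.sum_add_distrib, Finset.sum_const, nsmul_eq_mul, mul_one, Finset.sum_comm]
  congr 1
  refine Finset.sum_congr rfl fun i _ => ?_
  rw [Finset.sum_mul]
  exact Finset.sum_congr rfl fun j _ => mul_comm _ _

/-- The volume bound at a vertex. -/
theorem vol_bound (P : Set (Fin n → ℝ)) (hb : Bornology.IsBounded P) (hcl : IsClosed P)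
    (hbar : ∀ i, ∫ p in P, p i = 0) (R : Matrix (Fin n) (Fin n) ℤ) (hR : R.det ≠ 0)
    (hP : ∀ p ∈ P, ∀ j, -1 ≤ ∑ i, p i * ((R i j : ℤ) : ℝ)) (I : Finset (Fin n))
    (hIn : I.card < n) (hI : ∀ p ∈ P, ∑ j ∈ I, zc R p j ≤ (I.card : ℝ) + 1) :
    volume.real P ≤ gv I.card * gv (n - I.card) / |(R.det : ℝ)| := by
  have hVt : volume P ≠ ⊤ := hb.measure_lt_top.ne
  set V := volume.real P with hV
  set a := I.card with ha
  set b := n - I.card with hbdef
  have hb1 : 1 ≤ b := by omega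
  have hcc : (Iᶜ).card = b := by rw [Finset.card_compl, Fintype.card_fin]
  have hd : (0 : ℝ) < |(R.det : ℝ)| := by
    rw [abs_pos]
    exact_mod_cast hR
  by_contra hcon
  push Not at hcon
  have hpos : ∀ p ∈ P, ∀ j, 0 ≤ zc R p j := by
    intro p hp j
    have := hP p hp j
    unfold zc
    linarith
  set β : Fin n → ℝ := fun i => ∑ j ∈ Iᶜ, ((R i j : ℤ) : ℝ) with hβ
  have hh : ∀ p, ∑ j ∈ Iᶜ, zc R p j = ∑ i, β i * p i + (b : ℝ) := by
    intro p
    rw [zc_sum, hcc]
  have hlc := layer_cake P hb hcl β (b : ℝ) (fun p hp => by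
    rw [← hh]
    exact Finset.sum_nonneg fun j _ => hpos p hp j)
  have hz : ∑ i, β i * (∫ p in P, p i) = 0 :=
    Finset.sum_eq_zero fun i _ => by rw [hbar i, mul_zero]
  rw [hz, zero_add] at hlc
  -- constant
  set c : ℝ := ((a : ℝ) + 1) ^ a / a.factorial / b.factorial / |(R.det : ℝ)| with hc
  have hc0 : 0 ≤ c := by positivity
  have hcon' : c * ((b : ℝ) + 1) ^ b < V := by
    refine lt_of_eq_of_lt ?_ hcon
    rw [hc]
    unfold gv
    field_simp
  have hlow : ∀ t : ℝ, 0 ≤ t → ENNReal.ofReal (V - c * t ^ b) ≤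
      volume (P ∩ {p | t ≤ ∑ i, β i * p i + (b : ℝ)}) := by
    intro t ht
    have h1 : P ⊆ (P ∩ {p | t ≤ ∑ i, β i * p i + (b : ℝ)}) ∪
        {p | zc R p ∈ reg I ((a : ℝ) + 1) t} := by
      intro p hp
      by_cases hpt : t ≤ ∑ i, β i * p i + (b : ℝ)
      · exact Or.inl ⟨hp, hpt⟩
      · right
        refine ⟨hpos p hp, hI p hp, ?_⟩
        rw [hh]
        exact (not_le.1 hpt).le
    have h2 := (measure_mono (μ := (volume : Measure (Fin n → ℝ))) h1).trans (measure_union_le _ _)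
    rw [vol_zc R hR, vol_reg I _ t (by positivity) ht, ← ha, ← hbdef,
      ← ENNReal.ofReal_mul (by positivity), ← ENNReal.ofReal_mul (by positivity)] at h2
    have h3 : 1 / |(R.det : ℝ)| * (((a : ℝ) + 1) ^ a / a.factorial * (t ^ b / b.factorial)) =
        c * t ^ b := by
      rw [hc]
      field_simp
    rw [h3] at h2
    rw [ENNReal.ofReal_sub _ (by positivity)]
    have h4 : ENNReal.ofReal V = volume P := ENNReal.ofReal_toReal hVt
    rw [h4]
    exact tsub_le_iff_right.2 h2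
  have hint : ∫⁻ t in Set.Ioo (0 : ℝ) ((b : ℝ) + 1), ENNReal.ofReal (V - c * t ^ b) ≤
      ENNReal.ofReal ((b : ℝ) * V) := by
    rw [← hlc]
    refine (setLIntegral_mono' measurableSet_Ioo fun t ht => hlow t ht.1.le).trans ?_
    exact lintegral_mono_set fun t ht => ht.1
  have hcont : Continuous fun t : ℝ => V - c * t ^ b := by fun_prop
  have hIoo : IntegrableOn (fun t : ℝ => V - c * t ^ b) (Set.Ioo 0 ((b : ℝ) + 1)) volume :=
    (hcont.continuousOn.integrableOn_Icc (a := (0 : ℝ)) (b := (b : ℝ) + 1)).mono_set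
      Set.Ioo_subset_Icc_self
  rw [← ofReal_integral_eq_lintegral_ofReal hIoo] at hint
  · rw [← integral_Ioc_eq_integral_Ioo, ← intervalIntegral.integral_of_le (by positivity),
      intervalIntegral.integral_sub (by simp) (by
        apply Continuous.intervalIntegrable
        fun_prop), intervalIntegral.integral_const, intervalIntegral.integral_const_mul,
      integral_pow] at hint
    have hV0 : 0 < V := lt_of_le_of_lt (by positivity) hcon'
    rw [ENNReal.ofReal_le_ofReal_iff (by positivity)] at hint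
    have h5 : ((b : ℝ) + 1 - 0) • V - c * ((((b : ℝ) + 1) ^ (b + 1) - 0 ^ (b + 1)) / ((b : ℝ) + 1)) =
        ((b : ℝ) + 1) * V - c * ((b : ℝ) + 1) ^ b := by
      rw [smul_eq_mul, sub_zero, zero_pow (by omega), sub_zero, pow_succ]
      congr 2
      field_simp
    rw [h5] at hint
    linarith
  · refine (ae_restrict_iff' measurableSet_Ioo).2 (Filter.Eventually.of_forall fun t ht => ?_)
    have h6 : t ^ b ≤ ((b : ℝ) + 1) ^ b := pow_le_pow_left₀ ht.1.le ht.2.le b
    have h7 := mul_le_mul_of_nonneg_left h6 hc0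
    show 0 ≤ V - c * t ^ b
    linarith


end Pool.Agent.H2.TF
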