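import Pool.Agent.H2.TF.Comb2
import Pool.Agent.H2.TF.Vol

/-!
# The upper bound
-/

set_option autoImplicit false

noncomputable section

namespace Pool.Agent.H2.TF

open MeasureTheory

variable {n : ℕ}

theorem polytope_closed (V : Finset (Fin n → ℤ)) : IsClosed (polytope V) := by
  have h : polytope V = ⋂ v ∈ V, {x : Fin n → ℝ | -1 ≤ pair x v} := by
    ext x
    simp [polytope]
  rw [h]
  refine isClosed_biInter fun v _ => isClosed_le continuous_const ?_
  unfold pair
  fun_prop

theorem polytope_bounded {V : Finset (Fin n → ℤ)}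
    (hV : Submodule.span NNReal (emb '' (V : Set (Fin n → ℤ))) = ⊤) : Bornology.IsBounded (polytope V) := by
  have key : ∀ x : Fin n → ℝ, ∃ C : ℝ, 0 ≤ C ∧ ∀ p ∈ polytope V, -C ≤ ∑ i, p i * x i := by
    intro x
    obtain ⟨a, ha, hx⟩ := coeffs hV x
    refine ⟨∑ v ∈ V, a v, Finset.sum_nonneg fun v _ => ha v, fun p hp => ?_⟩
    have h1 : ∑ i, p i * x i = ∑ v ∈ V, a v * pair p v := by
      rw [← hx]
      simp only [Finset.sum_apply, Pi.smul_apply, smul_eq_mul, Finset.mul_sum, pair, emb]
      rw [Finset.sum_comm]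
      refine Finset.sum_congr rfl fun v _ => Finset.sum_congr rfl fun i _ => ?_
      ring
    rw [h1, ← Finset.sum_neg_distrib]
    refine Finset.sum_le_sum fun v hv => ?_
    have := mul_le_mul_of_nonneg_left (hp v hv) (ha v)
    linarith
  choose C hC0 hC using key
  rw [isBounded_iff_forall_norm_le]
  refine ⟨∑ i, (C (Pi.single i 1) + C (Pi.single i (-1))), fun p hp => ?_⟩
  have hnn : ∀ i : Fin n, 0 ≤ C (Pi.single i 1) + C (Pi.single i (-1)) := fun i =>
    add_nonneg (hC0 _) (hC0 _)
  rw [pi_norm_le_iff_of_nonneg (Finset.sum_nonneg fun i _ => hnn i)]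
  intro i
  have h1 := hC (Pi.single i 1) p hp
  have h2 := hC (Pi.single i (-1)) p hp
  have e : ∀ c : ℝ, ∑ k, p k * (Pi.single i c : Fin n → ℝ) k = p i * c := by
    intro c
    rw [Finset.sum_eq_single i]
    · rw [Pi.single_eq_same]
    · intro k _ hk
      rw [Pi.single_eq_of_ne hk, mul_zero]
    · intro h
      exact absurd (Finset.mem_univ i) h
  rw [e] at h1 h2
  have h3 : C (Pi.single i 1) + C (Pi.single i (-1)) ≤
      ∑ i, (C (Pi.single i 1) + C (Pi.single i (-1))) :=
    Finset.single_le_sum (fun i _ => hnn i) (Finset.mem_univ i)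
  rw [Real.norm_eq_abs, abs_le]
  have h4 := hC0 (Pi.single i 1)
  have h5 := hC0 (Pi.single i (-1))
  constructor <;> linarith

theorem gv_zero : gv 0 = 1 := by
  unfold gv
  norm_num

theorem fact_gv (n : ℕ) : (n.factorial : ℝ) * gv n = ((n : ℝ) + 1) ^ n := by
  unfold gv
  have h1 : (n.factorial : ℝ) ≠ 0 := by positivity
  field_simp

/-- Any `n` of the generators: the volume times the absolute value of the determinant is at most `(n + 1) ^ n`. -/
theorem det_bound {V : Finset (Fin n → ℤ)} (hn : 1 ≤ n)
    (hV : Submodule.span NNReal (emb '' (V : Set (Fin n → ℤ))) = ⊤) (hbar : BarycentreZero V)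
    (c : Fin n → (Fin n → ℤ)) (hc : ∀ j, c j ∈ V) :
    vol V * |((Matrix.of c).det : ℝ)| ≤ ((n : ℝ) + 1) ^ n := by
  by_cases hd : (Matrix.of c).det = 0
  · rw [hd, Int.cast_zero, abs_zero, mul_zero]
    positivity
  have hd' : ((Matrix.of c).transpose).det ≠ 0 := by rwa [Matrix.det_transpose]
  have hb := vol_bound (polytope V) (polytope_bounded hV) (polytope_closed V) hbar (Matrix.of c).transpose hd'
    (fun p hp j => hp (c j) (hc j)) ∅ (by rw [Finset.card_empty]; omega) (fun p _ => by simp)
  rw [Finset.card_empty, gv_zero, one_mul, Nat.sub_zero, Matrix.det_transpose] at hb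
  have hpos : (0 : ℝ) < |((Matrix.of c).det : ℝ)| := by
    rw [abs_pos]
    exact_mod_cast hd
  rw [le_div_iff₀ hpos] at hb
  rw [vol, mul_assoc, ← fact_gv]
  exact mul_le_mul_of_nonneg_left hb (by positivity)

/-- The upper bound. -/
theorem upper {V : Finset (Fin n → ℤ)} (hn : 2 ≤ n)
    (hV : Submodule.span NNReal (emb '' (V : Set (Fin n → ℤ))) = ⊤) (h0 : (0 : Fin n → ℤ) ∉ V)
    (hbar : BarycentreZero V) (hP : ¬ IsProjectiveSpace V) : vol V ≤ 2 * (n : ℝ) ^ n := by
  by_cases hU : Umod V
  · obtain ⟨c, hcV, hd, v0, hv0, I, hI0, hsum, hI⟩ := comb (by omega) hV h0 hU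
    have hd1 := abs_det_one hU hcV hd
    by_cases hIu : I = Finset.univ
    · exfalso
      apply hP
      refine ⟨c, Int.isUnit_iff_abs_eq.2 hd1, ?_⟩
      have h1 := hI hIu
      rwa [hsum, hIu] at h1
    · have hcard : I.card < n := by
        have h1 : I.card < (Finset.univ : Finset (Fin n)).card :=
          Finset.card_lt_card (Finset.ssubset_univ_iff.2 hIu)
        rwa [Finset.card_univ, Fintype.card_fin] at h1
      have hcard0 : 1 ≤ I.card := Finset.card_pos.2 hI0
      have hd' : ((Matrix.of c).transpose).det ≠ 0 := by rwa [Matrix.det_transpose]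
      have hle : ∀ p ∈ polytope V, ∑ j ∈ I, zc (Matrix.of c).transpose p j ≤ (I.card : ℝ) + 1 := by
        intro p hp
        have h1 := hp v0 hv0
        have h2 : pair p v0 = -∑ j ∈ I, pair p (c j) := by
          rw [hsum]
          simp only [pair, Pi.neg_apply, Finset.sum_apply, Int.cast_neg, Int.cast_sum, mul_neg,
            Finset.sum_neg_distrib, Finset.mul_sum]
          rw [Finset.sum_comm]
        have h3 : ∑ j ∈ I, zc (Matrix.of c).transpose p j = ∑ j ∈ I, pair p (c j) + I.card := by
          simp only [zc, Finset.sum_add_distrib, Finset.sum_const, nsmul_eq_mul, mul_one]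
          rfl
        rw [h3]
        linarith
      have hb := vol_bound (polytope V) (polytope_bounded hV) (polytope_closed V) hbar (Matrix.of c).transpose hd'
        (fun p hp j => hp (c j) (hcV j)) I hcard hle
      have hdet : |((Matrix.of c).transpose.det : ℝ)| = 1 := by
        rw [Matrix.det_transpose]
        exact_mod_cast hd1
      rw [hdet, div_one] at hb
      have hnum := num_main (n := n) (a := I.card) (b := n - I.card) hcard0 (by omega) (by omega)
      exact le_trans (mul_le_mul_of_nonneg_left hb (by positivity)) hnum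
  · unfold Umod at hU
    push Not at hU
    obtain ⟨c, hcV, hd⟩ := hU
    have hb := det_bound (by omega) hV hbar c hcV
    have h2 : (2 : ℝ) ≤ |((Matrix.of c).det : ℝ)| := by
      have : (2 : ℤ) ≤ |(Matrix.of c).det| := by omega
      exact_mod_cast this
    have h3 : 0 ≤ vol V := by
      unfold vol
      positivity
    have h4 := num_sing (n := n) (by omega)
    have h5 : vol V * 2 ≤ vol V * |((Matrix.of c).det : ℝ)| := mul_le_mul_of_nonneg_left h2 h3
    linarith

end Pool.Agent.H2.TF
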